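import Pool.Agent.MP_826def_gt.MU.Spec

/-!
Direct sum decompositions of bundles.
-/

namespace Pool.Agent.MP_826def_gt.BP

open Set Topology MU

noncomputable section

namespace XBun3

variable {X : Type} [TopologicalSpace X]

/-- Pointwise composition of continuous families of operators. -/
def cc {A B D : FD} (a : C(X, B →L[ℂ] D)) (b : C(X, A →L[ℂ] B)) : C(X, A →L[ℂ] D) :=
  ⟨fun x => a x ∘L b x, a.continuous.clm_comp b.continuous⟩

theorem cc_apply {A B D : FD} (a : C(X, B →L[ℂ] D)) (b : C(X, A →L[ℂ] B)) (x : X) :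
    cc a b x = a x ∘L b x := rfl

/-- The operator `A ↦ q ∘ A ∘ p`. -/
def cj {V W W' : FD} (p : C(X, V →L[ℂ] V)) (q : C(X, W →L[ℂ] W')) :
    C(X, V.hom W →L[ℂ] V.hom W') :=
  ⟨fun x => ContinuousLinearMap.compL ℂ V W W' (q x) ∘L
      (ContinuousLinearMap.compL ℂ V V W).flip (p x),
    continuous_clm_apply.2 fun _ => q.continuous.clm_comp (continuous_const.clm_comp p.continuous)⟩

theorem cj_apply {V W W' : FD} (p : C(X, V →L[ℂ] V)) (q : C(X, W →L[ℂ] W')) (x : X)
    (A : V →L[ℂ] W) (y : V) : cj p q x A y = q x (A (p x y)) := rfl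

/-- Decompositions indexed by any finite type. -/
def SplitI (ξ : Bun X) {ι : Type} [Fintype ι] (L : ι → Bun X) : Prop :=
  ∃ (u : ∀ i, C(X, (L i).W →L[ℂ] ξ.W)) (v : ∀ i, C(X, ξ.W →L[ℂ] (L i).W)),
    ∀ x, (∀ i, v i x ∘L u i x = (L i).p x) ∧ (∀ i j, i ≠ j → v i x ∘L u j x = 0) ∧
      ∑ i, u i x ∘L v i x = ξ.p x

theorem SplitI.reindex {ξ : Bun X} {ι κ : Type} [Fintype ι] [Fintype κ] {L : ι → Bun X}
    (h : SplitI ξ L) (e : κ ≃ ι) : SplitI ξ fun k => L (e k) := by
  obtain ⟨u, v, H⟩ := h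
  refine ⟨fun k => u (e k), fun k => v (e k), fun x => ⟨fun k => (H x).1 _,
    fun k l hkl => (H x).2.1 _ _ fun e' => hkl (e.injective e'), ?_⟩⟩
  rw [← (H x).2.2]
  exact e.sum_comp fun i => u i x ∘L v i x

theorem p_idem (ξ : Bun X) (x : X) (w : ξ.W) : ξ.p x (ξ.p x w) = ξ.p x w :=
  congrArg (fun q : ξ.W →L[ℂ] ξ.W => q w) (ξ.idem x)

section

variable {ξ : Bun X} {ι : Type} [Fintype ι] {L : ι → Bun X}
  {u : ∀ i, C(X, (L i).W →L[ℂ] ξ.W)} {v : ∀ i, C(X, ξ.W →L[ℂ] (L i).W)} {x : X}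

theorem p_u (H : (∀ i, v i x ∘L u i x = (L i).p x) ∧ (∀ i j, i ≠ j → v i x ∘L u j x = 0) ∧
      ∑ i, u i x ∘L v i x = ξ.p x) (j : ι) (w : (L j).W) :
    ξ.p x (u j x w) = u j x ((L j).p x w) := by
  rw [← H.2.2, _root_.sum_apply, Finset.sum_eq_single j, ← H.1 j]
  · rfl
  · intro i _ hi
    have := congrArg (fun q : (L j).W →L[ℂ] (L i).W => q w) (H.2.1 i j hi)
    exact (congrArg (u i x) this).trans (map_zero _)
  · exact fun h => absurd (Finset.mem_univ j) h

end

end XBun3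

open XBun3

variable {X : Type} [TopologicalSpace X]

/-- Pointwise form of a decomposition, with normalised maps. -/
theorem split_norm {ξ : Bun X} {k : ℕ} {L : Fin k → Bun X} (h : ξ.Split L) :
    ∃ (u : ∀ i, C(X, (L i).W →L[ℂ] ξ.W)) (v : ∀ i, C(X, ξ.W →L[ℂ] (L i).W)), ∀ x,
      (∀ i w, v i x (u i x w) = (L i).p x w) ∧ (∀ i j, i ≠ j → ∀ w, v i x (u j x w) = 0) ∧
      (∀ w, ∑ i, u i x (v i x w) = ξ.p x w) ∧ (∀ i w, u i x ((L i).p x w) = u i x w) ∧
      (∀ i w, (L i).p x (v i x w) = v i x w) ∧ (∀ i w, ξ.p x (u i x w) = u i x w) ∧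
      ∀ i w, v i x (ξ.p x w) = v i x w := by
  obtain ⟨u, v, H⟩ := h
  have h1 : ∀ x i w, v i x (u i x w) = (L i).p x w := fun x i w =>
    congrArg (fun q : (L i).W →L[ℂ] (L i).W => q w) ((H x).1 i)
  have h2 : ∀ x i j, i ≠ j → ∀ w, v i x (u j x w) = 0 := fun x i j hij w =>
    congrArg (fun q : (L j).W →L[ℂ] (L i).W => q w) ((H x).2.1 i j hij)
  have h3 : ∀ x w, ∑ i, u i x (v i x w) = ξ.p x w := fun x w => by
    rw [← (H x).2.2, _root_.sum_apply]; rfl
  have h4 : ∀ x i w, v i x (ξ.p x w) = (L i).p x (v i x w) := fun x i w => by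
    rw [← h3, map_sum, Finset.sum_eq_single i, h1]
    · exact fun j _ hj => h2 x i j (Ne.symm hj) _
    · exact fun h => absurd (Finset.mem_univ i) h
  refine ⟨fun i => cc (u i) (L i).p, fun i => cc (L i).p (v i), fun x => ⟨fun i w => ?_,
    fun i j hij w => ?_, fun w => ?_, fun i w => ?_, fun i w => ?_, fun i w => ?_, fun i w => ?_⟩⟩
  all_goals simp only [cc_apply, ContinuousLinearMap.comp_apply]
  · rw [h1, p_idem, p_idem]
  · rw [h2 x i j hij, map_zero]
  · simp only [p_idem, ← h4]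
    rw [h3, p_idem]
  · rw [p_idem]
  · rw [p_idem]
  · rw [p_u (H x), p_idem]
  · rw [h4, p_idem]

theorem split_mk {ξ : Bun X} {k : ℕ} {L : Fin k → Bun X} (u : ∀ i, C(X, (L i).W →L[ℂ] ξ.W))
    (v : ∀ i, C(X, ξ.W →L[ℂ] (L i).W)) (h1 : ∀ x i w, v i x (u i x w) = (L i).p x w)
    (h2 : ∀ x i j, i ≠ j → ∀ w, v i x (u j x w) = 0)
    (h3 : ∀ x w, ∑ i, u i x (v i x w) = ξ.p x w) : ξ.Split L :=
  ⟨u, v, fun x => ⟨fun i => ContinuousLinearMap.ext (h1 x i),
    fun i j hij => ContinuousLinearMap.ext (h2 x i j hij), ContinuousLinearMap.ext fun w => by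
      rw [_root_.sum_apply]; exact h3 x w⟩⟩

theorem split_pull {X' : Type} [TopologicalSpace X'] {ξ : Bun X} {k : ℕ} {L : Fin k → Bun X}
    (h : ξ.Split L) (f : C(X', X)) : (ξ.pull f).Split fun i => (L i).pull f := by
  obtain ⟨u, v, H⟩ := h
  exact ⟨fun i => (u i).comp f, fun i => (v i).comp f, fun x => H (f x)⟩

theorem split_triv (X : Type) [TopologicalSpace X] (E : FD) :
    (Bun.triv X E).Split fun _ : Fin E.dim => Bun.triv X FD.C := by
  let b := Module.finBasis ℂ E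
  refine split_mk
    (fun i => ContinuousMap.const X (ContinuousLinearMap.toSpanSingleton ℂ (b i)))
    (fun i => ContinuousMap.const X (LinearMap.toContinuousLinearMap (b.coord i)))
    (fun x i w => ?_) (fun x i j hij w => ?_) fun x w => ?_
  · show b.coord i ((w : ℂ) • b i) = w
    simp
  · show b.coord i ((w : ℂ) • b j) = 0
    simp [Finsupp.single_apply, hij.symm]
  · show ∑ i, b.coord i w • b i = w
    exact b.sum_repr w

theorem split_hom (η ξ : Bun X) {k : ℕ} (L : Fin k → Bun X) (h : ξ.Split L) :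
    (η.hom ξ).Split fun i => η.hom (L i) := by
  obtain ⟨u, v, H⟩ := split_norm h
  refine split_mk (fun i => cj η.p (u i)) (fun i => cj η.p (v i))
    (fun x i A => ContinuousLinearMap.ext fun y => ?_)
    (fun x i j hij A => ContinuousLinearMap.ext fun y => ?_)
    fun x A => ContinuousLinearMap.ext fun y => ?_
  · show v i x (u i x (A (η.p x (η.p x y)))) = (L i).p x (A (η.p x y))
    rw [(H x).1, p_idem]
  · exact (H x).2.1 i j hij _
  · rw [_root_.sum_apply]
    show ∑ i, u i x (v i x (A (η.p x (η.p x y)))) = ξ.p x (A (η.p x y))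
    rw [(H x).2.2.1, p_idem]

theorem split_iso (ξ η : Bun X) {k : ℕ} (L : Fin k → Bun X) (e : ξ.Iso η) (h : ξ.Split L) :
    η.Split L := by
  obtain ⟨u, v, H⟩ := split_norm h
  obtain ⟨a, b, E⟩ := e
  have e1 : ∀ x w, b x (a x w) = ξ.p x w := fun x w =>
    congrArg (fun q : ξ.W →L[ℂ] ξ.W => q w) (E x).1
  have e2 : ∀ x w, a x (b x w) = η.p x w := fun x w =>
    congrArg (fun q : η.W →L[ℂ] η.W => q w) (E x).2
  refine split_mk (fun i => cc a (u i)) (fun i => cc (v i) b) (fun x i w => ?_)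
    (fun x i j hij w => ?_) fun x w => ?_
  all_goals simp only [cc_apply, ContinuousLinearMap.comp_apply]
  · rw [e1, (H x).2.2.2.2.2.2, (H x).1]
  · rw [e1, (H x).2.2.2.2.2.2, (H x).2.1 i j hij]
  · rw [← map_sum, (H x).2.2.1, ← e1, e2, e2, p_idem]

theorem split_sum (ξ η : Bun X) {k l : ℕ} (L : Fin k → Bun X) (M : Fin l → Bun X)
    (h : ξ.Split L) (h' : η.Split M) : (ξ.sum η).Split (Fin.append L M) := by
  obtain ⟨u, v, H⟩ := split_norm h
  obtain ⟨u', v', H'⟩ := split_norm h'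
  have key : SplitI (ξ.sum η) (Sum.elim L M) := by
    refine ⟨fun i => match i with
      | .inl i => cc (ContinuousMap.const X (ContinuousLinearMap.inl ℂ ξ.W η.W)) (u i)
      | .inr j => cc (ContinuousMap.const X (ContinuousLinearMap.inr ℂ ξ.W η.W)) (u' j),
      fun i => match i with
      | .inl i => cc (v i) (ContinuousMap.const X (ContinuousLinearMap.fst ℂ ξ.W η.W))
      | .inr j => cc (v' j) (ContinuousMap.const X (ContinuousLinearMap.snd ℂ ξ.W η.W)),
      fun x => ⟨?_, ?_, ?_⟩⟩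
    · rintro (i | j)
      · exact ContinuousLinearMap.ext fun w => (H x).1 i w
      · exact ContinuousLinearMap.ext fun w => (H' x).1 j w
    · rintro (i | i) (j | j) hij
      · exact ContinuousLinearMap.ext fun w => (H x).2.1 i j (fun e => hij (congrArg _ e)) w
      · exact ContinuousLinearMap.ext fun w => map_zero (v i x)
      · exact ContinuousLinearMap.ext fun w => map_zero (v' i x)
      · exact ContinuousLinearMap.ext fun w => (H' x).2.1 i j (fun e => hij (congrArg _ e)) w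
    · refine ContinuousLinearMap.ext fun w => ?_
      rw [_root_.sum_apply, Fintype.sum_sum_type]
      show ∑ i, ((u i x (v i x w.1), 0) : ξ.W × η.W) + ∑ j, ((0, u' j x (v' j x w.2)) : ξ.W × η.W) =
        (ξ.p x w.1, η.p x w.2)
      rw [← (H x).2.2.1, ← (H' x).2.2.1]
      ext <;> simp [Prod.fst_sum, Prod.snd_sum]
  have e : Fin.append L M = fun i => Sum.elim L M (finSumFinEquiv.symm i) := by
    funext i
    induction i using Fin.addCases <;> simp
  rw [e]
  exact key.reindex finSumFinEquiv.symm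

theorem split_succ (ξ : Bun X) {k : ℕ} (L : Fin (k + 1) → Bun X) (h : ξ.Split L) :
    ∃ η : Bun X, η.Split (fun i => L i.succ) ∧ ξ.Iso ((L 0).sum η) := by
  obtain ⟨u, v, H⟩ := split_norm h
  let q : C(X, ξ.W →L[ℂ] ξ.W) := ∑ i : Fin k, cc (u i.succ) (v i.succ)
  have hq : ∀ x w, q x w = ∑ i : Fin k, u i.succ x (v i.succ x w) := fun x w => by
    simp only [q, ContinuousMap.sum_apply, _root_.sum_apply, cc_apply,
      ContinuousLinearMap.comp_apply]
  have hv : ∀ x (i : Fin k) w, v i.succ x (q x w) = v i.succ x w := fun x i w => by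
    rw [hq, map_sum, Finset.sum_eq_single i, (H x).1, (H x).2.2.2.2.1]
    · exact fun j _ hj => (H x).2.1 _ _ (fun e => hj (Fin.succ_injective _ e).symm) _
    · exact fun h => absurd (Finset.mem_univ i) h
  have hqq : ∀ x w, q x (q x w) = q x w := fun x w => by
    rw [hq x (q x w)]
    simp only [hv]
    exact (hq x w).symm
  have h0 : ∀ x w, v 0 x (q x w) = 0 := fun x w => by
    rw [hq, map_sum]
    exact Finset.sum_eq_zero fun i _ => (H x).2.1 _ _ (Fin.succ_ne_zero i).symm _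
  have h0' : ∀ x w, q x (u 0 x w) = 0 := fun x w => by
    rw [hq]
    exact Finset.sum_eq_zero fun i _ => by rw [(H x).2.1 _ _ (Fin.succ_ne_zero i), map_zero]
  let η : Bun X := ⟨ξ.W, q, fun x => ContinuousLinearMap.ext (hqq x)⟩
  refine ⟨η, split_mk (ξ := η) (fun i => u i.succ) (fun i => v i.succ) (fun x i => (H x).1 _)
    (fun x i j hij => (H x).2.1 _ _ fun e => hij (Fin.succ_injective _ e))
    fun x w => (hq x w).symm, ?_⟩
  refine ⟨cc (ContinuousMap.const X (ContinuousLinearMap.inl ℂ (L 0).W ξ.W)) (v 0) +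
      cc (ContinuousMap.const X (ContinuousLinearMap.inr ℂ (L 0).W ξ.W)) q,
    cc (u 0) (ContinuousMap.const X (ContinuousLinearMap.fst ℂ (L 0).W ξ.W)) +
      cc q (ContinuousMap.const X (ContinuousLinearMap.snd ℂ (L 0).W ξ.W)),
    fun x => ⟨ContinuousLinearMap.ext fun w => ?_, ContinuousLinearMap.ext fun w => ?_⟩⟩
  · show u 0 x (v 0 x w + 0) + q x (0 + q x w) = ξ.p x w
    rw [add_zero, zero_add, hqq, hq, ← (H x).2.2.1, Fin.sum_univ_succ]
  · show ((v 0 x (u 0 x w.1 + q x w.2) + 0, 0 + q x (u 0 x w.1 + q x w.2)) : (L 0).W × ξ.W) =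
      ((L 0).p x w.1, q x w.2)
    rw [map_add, map_add, h0, h0', hqq, (H x).1]
    simp

/-- The rank of a direct sum. -/
theorem split_rk (g2 : S_good2) {k : ℕ} : ∀ {ξ : Bun X} {L : Fin k → Bun X}, ξ.Split L →
    ∀ x, rk (ξ.p x) = ∑ i, rk ((L i).p x) := by
  induction k with
  | zero =>
    rintro ξ L ⟨u, v, H⟩ x
    rw [← (H x).2.2]
    simp [rk]
  | succ k ih =>
    intro ξ L h x
    obtain ⟨η, h1, a, b, E⟩ := split_succ ξ L h
    rw [Fin.sum_univ_succ, ← ih h1 x, ← g2.rk_sum]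
    exact g2.rk_iso _ _ (a x) (b x) (ξ.idem x) (((L 0).sum η).idem x) (E x).1 (E x).2

theorem split_rk_one (g2 : S_good2) {k : ℕ} {ξ : Bun X} {L : Fin k → Bun X} (h : ξ.Split L)
    (h1 : ∀ i, (L i).Rk 1) : ξ.Rk k := fun x => by
  rw [split_rk g2 h x, Finset.sum_congr rfl fun i _ => h1 i x]
  simp

end

end Pool.Agent.MP_826def_gt.BP
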