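import Pool.Agent.MP_826def_gt.MU.Spec

/-!
Compatibility of the action with the maps.
-/

namespace Pool.Agent.MP_826def_gt.BP

open Set Topology Pool.Agent.MP_826def_gt.MU

variable {X X' X'' U K K' : Type} [TopologicalSpace X] [TopologicalSpace X'] [TopologicalSpace X'']
  [TopologicalSpace U] [TopologicalSpace K] [TopologicalSpace K'] [CompactSpace K] [T2Space K]
  [CompactSpace K'] [T2Space K'] [C : Fact Core]

theorem act_pull (f : C(X, K)) (φ : C(X', X)) (a : h K) (y : h X) :
    pull φ (MU.act f a y) = MU.act (f.comp φ) a (pull φ y) := by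
  by_cases hφ : IsProperMap φ
  · rw [act_def, act_def, pull_prod (pr_id f) hφ]
    conv_rhs => rw [← pull_id a]
    exact (prod_pull (pr_id (f.comp φ)) (f' := ContinuousMap.id K) isProperMap_id hφ a y).symm
  · have : pull φ = 0 := by rw [pull, dif_neg hφ]
    rw [this, AddMonoidHom.zero_apply, AddMonoidHom.zero_apply, map_zero]

theorem act_push (F : S_fun) (f : C(X, K)) (j : C(U, X)) (a : h K) (y : h U) :
    push j (MU.act (f.comp j) a y) = MU.act f a (push j y) := by
  by_cases hj : IsOpenEmbedding j
  · have e := (F.bcP f (ContinuousMap.id X) j (ContinuousMap.id K) j (f.comp j) (ContinuousMap.id U)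
      (pr_id f) hj IsOpenEmbedding.id hj (fun _ => rfl) (fun _ => rfl) fun _ _ hx => hx).2 a y
    rw [F.push_homeo (ContinuousMap.id K) (ContinuousMap.id K) (fun _ => rfl) (fun _ => rfl),
      pull_id] at e
    exact e.symm
  · have : push j = 0 := by rw [push, dif_neg hj]
    rw [this, AddMonoidHom.zero_apply, AddMonoidHom.zero_apply, map_zero]

theorem act_twist (t : S_tw) (f : C(X, K)) (g : C(X', X)) (ξ : Bun X') (σ : C(X', ξ.W)) (a : h K)
    (y : h X) : twist g ξ σ (MU.act f a y) = MU.act (f.comp g) a (twist g ξ σ y) := by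
  by_cases hg : Tw g ξ σ
  · exact t.prod g ξ σ f (ContinuousMap.id X) hg (pr_id f) hg a y
  · have : twist g ξ σ = 0 := by rw [twist, dif_neg hg]
    rw [this, AddMonoidHom.zero_apply, AddMonoidHom.zero_apply, map_zero]

theorem act_base (f : C(X, K')) (g : C(K', K)) (a : h K) :
    MU.act f (pullR g a) = MU.act (g.comp f) a := by
  refine AddMonoidHom.ext fun y => ?_
  have e := prod_pull (pr_id f) g.continuous.isProperMap (g' := ContinuousMap.id X) isProperMap_id a y
  rw [pull_id] at e
  exact e

theorem act_comm (f : C(X, K)) (g : C(X, K')) (a : h K) (b : h K') (y : h X) :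
    MU.act f a (MU.act g b y) = MU.act g b (MU.act f a y) := by
  have e1 : MU.act f a = MU.act (f.prodMk g) (pullR ContinuousMap.fst a) :=
    (act_base (f.prodMk g) ContinuousMap.fst a).symm
  have e2 : MU.act g b = MU.act (f.prodMk g) (pullR ContinuousMap.snd b) :=
    (act_base (f.prodMk g) ContinuousMap.snd b).symm
  have e : ∀ u v : h (K × K'), MU.act (f.prodMk g) u (MU.act (f.prodMk g) v y) =
      MU.act (f.prodMk g) (u * v) y := fun u v => by
    rw [map_mul]
    rfl
  rw [e1, e2, e, e, mul_comm]

theorem act_self (f : C(K', K)) (a : h K) (y : h K') : MU.act f a y = pullR f a * y :=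
  (congrArg (fun φ : AddMonoid.End (h K') => φ y) (act_base (ContinuousMap.id K') f a)).symm

theorem act (f : S_fun) (t : S_tw) (p : S_pv) : S_act where
  pull g φ a := ⟨act_pull g φ a, fun y => Prod.ext (act_pull g φ a y.1)
    (act_pull (g.comp ContinuousMap.fst) (xR φ) a y.2)⟩
  push g j a := ⟨act_push f g j a, fun y => Prod.ext (act_push f g j a y.1)
    (act_push f (g.comp ContinuousMap.fst) (xR j) a y.2)⟩
  twist k g ξ σ a := ⟨act_twist t k g ξ σ a, fun y => Prod.ext (act_twist t k g ξ σ a y.1)
    (act_twist t (k.comp ContinuousMap.fst) (xR g) (ξ.pull ContinuousMap.fst)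
      (σ.comp ContinuousMap.fst) a y.2)⟩
  pushV g E a y := ((p.prod E g (ContinuousMap.id _) (pr_id g)).2 a y).symm
  base g k a := ⟨act_base g k a, congrArg₂ AddMonoidHom.prodMap (act_base g k a)
    (act_base (g.comp ContinuousMap.fst) k a)⟩
  comm g k a b := ⟨act_comm g k a b, fun y => Prod.ext (act_comm g k a b y.1)
    (act_comm (g.comp ContinuousMap.fst) (k.comp ContinuousMap.fst) a b y.2)⟩
  self := act_self
  Hcomp g k hg hk y := Prod.ext (pull_comp hg hk y.1)
    (pull_comp (f := xR g) (g := xR k) (hg.prodMap isProperMap_id) (hk.prodMap isProperMap_id) y.2)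
  Hid y := Prod.ext (pull_id y.1) (pull_id y.2)

end Pool.Agent.MP_826def_gt.BP
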