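import Pool.Agent.MP_826def_gt.MU.Spec

/-! The grading. -/

namespace Pool.Agent.MP_826def_gt.BP

open Set Topology MU

namespace DegX

variable {X : Type} [TopologicalSpace X]

omit [TopologicalSpace X] in
theorem raw_congr {V W : FD} {O O' : Set (X × V)} (p : X × V → W →L[ℂ] W) (s : X × V → W)
    (e : O = O') : (⟨V, W, O, p, s⟩ : Raw X) = ⟨V, W, O', p, s⟩ := by rw [e]

theorem dim_prod (V W : FD) : (V.prod W).dim = V.dim + W.dim := Module.finrank_prod

variable [C : Fact Core]

theorem good_part {c : Raw X} (hc : c.Good) (d : ℤ) : (c.part d).Good := (C.out.good2.deg d hc).2.2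

theorem proj (d e : ℤ) (x : h X) : part d (part e x) = if d = e then part e x else 0 := by
  induction x using h_ind with | _ c hc => ?_
  rw [part_cls e hc, part_cls d (good_part hc e)]
  split_ifs with hde
  · subst hde
    refine congrArg cls (raw_congr _ _ (Set.ext fun z => ⟨fun hz => hz.1, fun hz => ?_⟩))
    exact ⟨hz, hz, hz.2.2⟩
  · refine cls_empty (good_part (good_part hc e) d) (eq_empty_of_forall_notMem fun z hz => ?_)
    have h1 : (rk (c.p z) : ℤ) = e + c.V.dim := hz.1.1.2.2
    have h2 : (rk (c.p z) : ℤ) = d + c.V.dim := hz.1.2.2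
    omega

theorem sum_part (S : Finset ℤ) : ∀ c : Raw X, c.Good →
    (∀ z ∈ c.Z, (rk (c.p z) : ℤ) - c.V.dim ∈ S) → ∑ d ∈ S, part d (cls c) = cls c := by
  classical
  induction S using Finset.induction_on with
  | empty =>
    intro c hc H
    rw [Finset.sum_empty]
    exact (cls_empty hc (eq_empty_of_forall_notMem fun z hz => by simpa using H z hz)).symm
  | insert a S ha ih =>
    intro c hc H
    obtain ⟨h1, h2, -⟩ := C.out.good2.deg a hc
    have hd : Disjoint (c.deg a) (c.O \ c.deg a) := disjoint_sdiff_right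
    have hZ : c.Z ⊆ c.deg a ∪ c.O \ c.deg a := fun z hz => by
      by_cases hz' : z ∈ c.deg a
      · exact Or.inl hz'
      · exact Or.inr ⟨hz.1, hz'⟩
    have hc' : (c.res (c.O \ c.deg a)).Good :=
      C.out.good1.res' hc h2 h1 hd.symm (by rwa [union_comm])
    have e : cls c = part a (cls c) + cls (c.res (c.O \ c.deg a)) := by
      rw [part_cls a hc]
      exact cls_split hc h1 h2 hd hZ
    have e' := ih _ hc' fun z hz => by
      rcases Finset.mem_insert.1 (H z ⟨hz.1.1, hz.2⟩) with h3 | h3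
      · exact (hz.1.2.2 ⟨hz.1.1, by omega⟩).elim
      · exact h3
    rw [Finset.sum_insert ha]
    conv_rhs => rw [e, ← e']
    congr 1
    refine Finset.sum_congr rfl fun d hd => ?_
    conv_lhs => rw [e]
    rw [map_add, proj, if_neg (fun h : d = a => ha (h ▸ hd)), zero_add]

theorem fin (x : h X) : ∃ S : Finset ℤ, ∑ d ∈ S, part d x = x ∧ ∀ d ∉ S, part d x = 0 := by
  classical
  induction x using h_ind with | _ c hc => ?_
  have key : ∀ z, (rk (c.p z) : ℤ) - c.V.dim ∈
      (Finset.range (c.W.dim + 1)).image fun k : ℕ => (k : ℤ) - c.V.dim := fun z =>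
    Finset.mem_image.2 ⟨rk (c.p z), Finset.mem_range.2
      (Nat.lt_succ_of_le (Submodule.finrank_le _)), rfl⟩
  refine ⟨_, sum_part _ c hc fun z _ => key z, fun d hd => ?_⟩
  rw [part_cls d hc]
  refine cls_empty (good_part hc d) (eq_empty_of_forall_notMem fun z hz => hd ?_)
  have h1 : (rk (c.p z) : ℤ) = d + c.V.dim := hz.1.2.2
  have h2 : d = (rk (c.p z) : ℤ) - c.V.dim := by omega
  rw [h2]
  exact key z

theorem rep (d : ℤ) (x : h X) (hx : IsDeg d x) :
    ∃ c : Raw X, c.Good ∧ cls c = x ∧ ∀ z ∈ c.O, (rk (c.p z) : ℤ) = d + c.V.dim := by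
  induction x using h_ind with | _ c hc => ?_
  exact ⟨c.part d, good_part hc d, (part_cls d hc).symm.trans hx, fun z hz => hz.2.2⟩

theorem of_rk (d : ℤ) (c : Raw X) (hc : c.Good)
    (H : ∀ z ∈ c.Z, (rk (c.p z) : ℤ) = d + c.V.dim) : IsDeg d (cls c) := by
  refine (part_cls d hc).trans (cls_move hc (good_part hc d) ?_).symm
  exact Move.germ c _ _ _ inter_subset_left (fun _ _ => rfl) (fun _ _ => rfl)
    fun z hz => ⟨hz.1, hz.1, H z hz⟩

end DegX

open DegX in
theorem deg [C : Fact Core] : S_deg where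
  proj := proj
  fin := fin
  rep := DegX.rep
  of_rk := of_rk
  pull := fun f d x => by
    by_cases hf : IsProperMap f
    · induction x using h_ind with | _ c hc => ?_
      rw [pull_cls hf hc, part_cls d (C.out.good1.pull hc hf), part_cls d hc,
        pull_cls hf (good_part hc d)]
      rfl
    · rw [pull, dif_neg hf]
      exact map_zero _
  push := fun j d x => by
    by_cases hj : IsOpenEmbedding j
    · induction x using h_ind with | _ c hc => ?_
      rw [push_cls hj hc, part_cls d (C.out.good2.push hc hj), part_cls d hc,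
        push_cls hj (good_part hc d)]
      have hi : Function.Injective (Prod.map j (id : c.V → c.V)) :=
        hj.injective.prodMap Function.injective_id
      refine congrArg cls (raw_congr _ _ (Set.ext fun z => ⟨?_, ?_⟩))
      · rintro ⟨⟨w, hw, rfl⟩, -, h2⟩
        refine ⟨w, ⟨hw, hw, ?_⟩, rfl⟩
        have h3 : (rk (Function.extend (Prod.map j id) c.p 0 (Prod.map j id w)) : ℤ) =
          d + c.V.dim := h2
        rwa [hi.extend_apply] at h3
      · rintro ⟨w, hw, rfl⟩
        refine ⟨⟨w, hw.1, rfl⟩, ⟨w, hw.1, rfl⟩, ?_⟩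
        change (rk (Function.extend (Prod.map j id) c.p 0 (Prod.map j id w)) : ℤ) = d + c.V.dim
        rw [hi.extend_apply]
        exact hw.2.2
    · rw [push, dif_neg hj]
      exact map_zero _
  pushV := fun E d x => by
    induction x using h_ind with | _ c hc => ?_
    rw [pushV_cls E hc, part_cls d (C.out.good1.pushV E hc), part_cls _ hc,
      pushV_cls E (good_part hc _)]
    have e := dim_prod E c.V
    refine congrArg cls (raw_congr _ _ (Set.ext fun z => ⟨fun hz => ⟨hz.1, hz.1, ?_⟩,
      fun hz => ⟨hz.1, hz.1, ?_⟩⟩))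
    · have h1 : (rk (c.p ((z.1, z.2.1), z.2.2)) : ℤ) = d + (E.prod c.V).dim := hz.2.2
      change (rk (c.p ((z.1, z.2.1), z.2.2)) : ℤ) = d + E.dim + c.V.dim
      omega
    · have h1 : (rk (c.p ((z.1, z.2.1), z.2.2)) : ℤ) = d + E.dim + c.V.dim := hz.2.2
      change (rk (c.p ((z.1, z.2.1), z.2.2)) : ℤ) = d + (E.prod c.V).dim
      omega
  twist := fun g ξ σ k hk d x => by
    by_cases hg : Tw g ξ σ
    · induction x using h_ind with | _ c hc => ?_
      rw [twist_cls hg hc, part_cls _ (C.out.good2.twist hc hg), part_cls d hc,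
        twist_cls hg (good_part hc d)]
      refine congrArg cls (raw_congr _ _ (Set.ext fun z => ?_))
      have e := C.out.good2.rk_sum (c.p (g z.1, z.2)) (ξ.p z.1)
      rw [hk z.1] at e
      refine ⟨fun hz => ⟨hz.1, hz.1, ?_⟩, fun hz => ⟨hz.1, hz.1, ?_⟩⟩
      · have h1 : (rk (W := c.W.prod ξ.W) ((c.p (g z.1, z.2)).prodMap (ξ.p z.1)) : ℤ) =
          d + k + c.V.dim := hz.2.2
        change (rk (c.p (g z.1, z.2)) : ℤ) = d + c.V.dim
        omega
      · have h1 : (rk (c.p (g z.1, z.2)) : ℤ) = d + c.V.dim := hz.2.2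
        change (rk (W := c.W.prod ξ.W) ((c.p (g z.1, z.2)).prodMap (ξ.p z.1)) : ℤ) =
          d + k + c.V.dim
        omega
    · rw [twist, dif_neg hg]
      exact map_zero _
  prod := fun f g d e a ha y => by
    by_cases hf : Pr f g
    · obtain ⟨a, ga, rfl, H⟩ := DegX.rep d a ha
      induction y using h_ind with | _ c hc => ?_
      rw [prod_cls hf ga hc, part_cls _ (C.out.good2.prod ga hc hf), part_cls e hc,
        prod_cls hf ga (good_part hc e)]
      refine congrArg cls (raw_congr _ _ (Set.ext fun z => ?_))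
      have e1 := C.out.good2.rk_sum (a.p (f z.1, z.2.1)) (c.p (g z.1, z.2.2))
      have e2 := dim_prod a.V c.V
      refine ⟨fun hz => ⟨hz.1.1, hz.1.2, hz.1.2, ?_⟩, fun hz => ⟨⟨hz.1, hz.2.1⟩, ⟨hz.1, hz.2.1⟩, ?_⟩⟩
      · have h0 := H _ hz.1.1
        have h1 : (rk (W := a.W.prod c.W) ((a.p (f z.1, z.2.1)).prodMap (c.p (g z.1, z.2.2))) : ℤ) =
          d + e + (a.V.prod c.V).dim := hz.2.2
        change (rk (c.p (g z.1, z.2.2)) : ℤ) = e + c.V.dim
        omega
      · have h0 := H _ hz.1
        have h1 : (rk (c.p (g z.1, z.2.2)) : ℤ) = e + c.V.dim := hz.2.2.2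
        change (rk (W := a.W.prod c.W) ((a.p (f z.1, z.2.1)).prodMap (c.p (g z.1, z.2.2))) : ℤ) =
          d + e + (a.V.prod c.V).dim
        omega
    · rw [MU.prod, dif_neg hf]
      exact map_zero _
  one := fun K _ _ _ => by
    refine of_rk 0 _ (C.out.good1.one K) fun z _ => ?_
    have h1 : FD.zero.dim = 0 := Module.finrank_zero_of_subsingleton
    have h2 : rk ((Raw.one K).p z) ≤ FD.zero.dim := Submodule.finrank_le _
    change (rk ((Raw.one K).p z) : ℤ) = 0 + FD.zero.dim
    omega

end Pool.Agent.MP_826def_gt.BP
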