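import Pool.Agent.MP_826def_gt.MU.Spec

/-!
Euler classes.
-/

namespace Pool.Agent.MP_826def_gt.BP

open Set Topology Pool.Agent.MP_826def_gt.MU

variable {X K K' : Type} [TopologicalSpace X] [TopologicalSpace K] [TopologicalSpace K']
  [CompactSpace K] [T2Space K] [CompactSpace K'] [T2Space K'] [C : Fact Core]

/-- Cocycles that differ by constant linear isomorphisms have the same class. -/
theorem eul_congr {c c' : Raw X} (hc : c.Good) (hc' : c'.Good) (e : c'.V ≃L[ℂ] c.V)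
    (J : c.W →L[ℂ] c'.W) (R : c'.W →L[ℂ] c.W) (hO : ∀ z, z ∈ c'.O ↔ (z.1, e z.2) ∈ c.O)
    (hR : ∀ w, R (J w) = w) (hp : ∀ z w, J (c.p (z.1, e z.2) (R w)) = c'.p z w)
    (hs : ∀ z, J (c.s (z.1, e z.2)) = c'.s z) : cls c = cls c' := by
  refine C.out.eqv c c' e c'.O (fun z => J ∘L c.p (z.1, e z.2)) (fun _ => R) hc hc' hc'.op
    (fun _ hz => hz.1) (fun z hz => (hO z).2 hz.1) ?_ continuousOn_const fun z hz =>
    ⟨hz, (hO z).1 hz, ContinuousLinearMap.ext fun w => hR _, ContinuousLinearMap.ext (hp z), ?_⟩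
  · exact continuousOn_const.clm_comp (hc.cp.comp (by fun_prop) fun z hz => (hO z).1 hz)
  · rw [ContinuousLinearMap.comp_apply, hc.sec _ ((hO z).1 hz), hs]

theorem tw_zero (t : S_tw) (ξ : Bun X) : Tw (ContinuousMap.id X) ξ 0 :=
  (t.tw_id ξ 0 fun x => map_zero (ξ.p x)).1

theorem eul_act (t : S_tw) (f : C(X, K)) (ξ : Bun K) (y : h X) :
    MU.eul (ξ.pull f) y = MU.act f (eu ξ) y := by
  induction y using h_ind with | _ c hc => ?_
  have h1 := C.out.good1.one K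
  have h2 := C.out.good2.twist h1 (tw_zero t ξ)
  rw [act_def, eu, one_def, twist_cls (tw_zero t ξ) h1, twist_cls (tw_zero t _) hc,
    prod_cls (pr_id f) h2 hc]
  exact eul_congr (C.out.good2.twist hc (tw_zero t _)) (C.out.good2.prod h2 hc (pr_id f))
    (ContinuousLinearEquiv.uniqueProd ℂ c.V Unit)
    (((0 : c.W × ξ.W →L[ℂ] Unit).prod (ContinuousLinearMap.snd ℂ c.W ξ.W)).prod
      (ContinuousLinearMap.fst ℂ c.W ξ.W))
    ((ContinuousLinearMap.snd ℂ (Unit × ξ.W) c.W).prod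
      (ContinuousLinearMap.snd ℂ Unit ξ.W ∘L ContinuousLinearMap.fst ℂ (Unit × ξ.W) c.W))
    (fun z => ⟨fun hz => hz.2, fun hz => ⟨mem_univ _, hz⟩⟩) (fun _ => rfl) (fun _ _ => rfl)
    fun _ => rfl

theorem eu_pull (t : S_tw) (f : C(K', K)) (ξ : Bun K) : pullR f (eu ξ) = eu (ξ.pull f) := by
  have e := prod_pull (pr_id (ContinuousMap.id K')) f.continuous.isProperMap
    (g' := ContinuousMap.id K') isProperMap_id (eu ξ) 1
  rw [pull_id, ← mul_def, mul_one] at e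
  exact e.trans (eul_act t f ξ 1).symm

theorem eu_iso (t : S_tw) (ξ η : Bun K) (e : ξ.Iso η) : eu ξ = eu η := by
  obtain ⟨u, v, e⟩ := e
  exact (t.iso (ContinuousMap.id K) ξ η 0 0 u v (tw_zero t ξ)
    fun x => ⟨(e x).1, (e x).2, map_zero (u x)⟩).2 1

theorem eu_sum (t : S_tw) (ξ η : Bun K) : eu (ξ.sum η) = eu ξ * eu η := by
  have e := (t.twist_twist (ContinuousMap.id K) η 0 (ContinuousMap.id K) ξ 0 (tw_zero t η)
    (tw_zero t ξ)).2 1
  rw [mul_comm]
  exact e.symm.trans (eul_act t (ContinuousMap.id K) η (eu ξ))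

theorem eu_zero (t : S_tw) (ξ : Bun K) (e : ∀ x, ξ.p x = 0) : eu ξ = 1 :=
  (t.zero (ContinuousMap.id K) ξ isProperMap_id e 1).trans (pull_id 1)

theorem eu_split (b : S_bun) (t : S_tw) (k : ℕ) (ξ : Bun K) (L : Fin k → Bun K) (e : ξ.Split L) :
    eu ξ = ∏ i, eu (L i) := by
  induction k generalizing ξ with
  | zero =>
    obtain ⟨u, v, e⟩ := e
    rw [Fin.prod_univ_zero]
    exact eu_zero t ξ fun x => (e x).2.2.symm.trans (Fin.sum_univ_zero _)
  | succ k ih =>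
    obtain ⟨η, h1, h2⟩ := b.split_succ ξ L e
    rw [Fin.prod_univ_succ, eu_iso t _ _ h2, eu_sum t, ih η _ h1]

theorem eu_nz (t : S_tw) {ι : Type} [Fintype ι] (L : ι → Bun K) (σ : ∀ i, C(K, (L i).W))
    (hσ : ∀ i x, (L i).p x (σ i x) = σ i x) (hn : ∀ x, ∃ i, σ i x ≠ 0) : ∏ i, eu (L i) = 0 := by
  classical
  have key : ∀ S : Finset ι, ∃ (η : Bun K) (τ : C(K, η.W)), ∏ i ∈ S, eu (L i) = eu η ∧
      (∀ x, η.p x (τ x) = τ x) ∧ ∀ x, τ x = 0 → ∀ i ∈ S, σ i x = 0 := fun S => by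
    induction S using Finset.induction_on with
    | empty =>
      exact ⟨Bun.triv K FD.zero, 0, (eu_zero t _ fun _ => ContinuousLinearMap.ext fun _ => rfl).symm,
        fun _ => rfl, fun _ _ _ hi => absurd hi (Finset.notMem_empty _)⟩
    | insert i S hi ih =>
      obtain ⟨η, τ, h1, h2, h3⟩ := ih
      refine ⟨(L i).sum η, (σ i).prodMk τ, by rw [Finset.prod_insert hi, h1, eu_sum t],
        fun x => Prod.ext (hσ i x) (h2 x), fun x e j hj => ?_⟩
      rcases Finset.mem_insert.1 hj with rfl | hj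
      · exact congrArg Prod.fst e
      · exact h3 x (congrArg Prod.snd e) j hj
  obtain ⟨η, τ, h1, h2, h3⟩ := key Finset.univ
  rw [h1, eu, ← (t.tw_id η τ h2).2]
  refine t.empty _ η τ (fun x e => ?_) 1
  obtain ⟨i, hi⟩ := hn x
  exact hi (h3 x e i (Finset.mem_univ i))

theorem eu_deg (d : S_deg) (ξ : Bun K) (k : ℕ) (e : ξ.Rk k) : IsDeg k (eu ξ) := by
  have h1 := d.twist (ContinuousMap.id K) ξ 0 k e 0 1
  rw [zero_add, d.one K] at h1
  exact h1

theorem eul (b : S_bun) (_f : S_fun) (t : S_tw) (d : S_deg) : S_eul where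
  act g ξ := ⟨eul_act t g ξ, fun y => Prod.ext (eul_act t g ξ y.1)
    (eul_act t (g.comp ContinuousMap.fst) ξ y.2)⟩
  pull := eu_pull t
  iso := eu_iso t
  sum := eu_sum t
  split ξ k L := eu_split b t k ξ L
  nz := eu_nz t
  deg := eu_deg d

end Pool.Agent.MP_826def_gt.BP
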