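import Pool.Agent.MP_826def_gt.MU.Spec

/-!
Functoriality of pull back and of extension by zero.
-/

namespace Pool.Agent.MP_826def_gt.BP

open Set Topology Filter MU

noncomputable section

/-- Base change of a proper map. -/
theorem proper_bc {A A' B B' : Type} [TopologicalSpace A] [TopologicalSpace A']
    [TopologicalSpace B] [TopologicalSpace B'] {f : A' → A} {j : B → A} {j' : B' → A'}
    {f' : B' → B} (hf : IsProperMap f) (hj : Continuous j) (hi : Function.Injective j)
    (hj' : IsInducing j') (hf' : Continuous f') (e : ∀ u, j (f' u) = f (j' u))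
    (hs : ∀ x, f x ∈ range j → x ∈ range j') : IsProperMap f' := by
  refine isProperMap_iff_ultrafilter.2 ⟨hf', fun 𝒰 u hu => ?_⟩
  have h1 : Tendsto f (𝒰.map j') (𝓝 (j u)) := by
    have h2 : Tendsto (fun b => j (f' b)) 𝒰 (𝓝 (j u)) := (hj.tendsto u).comp hu
    rw [funext e] at h2
    exact h2
  obtain ⟨x, hx, hl⟩ := (isProperMap_iff_ultrafilter.1 hf).2 h1
  obtain ⟨b, rfl⟩ := hs x ⟨u, hx.symm⟩
  refine ⟨b, hi ((e b).trans hx), ?_⟩
  rw [hj'.nhds_eq_comap]
  exact map_le_iff_le_comap.1 hl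

section raw

variable {X U : Type} {j : U → X}

theorem push_mem (hj : Function.Injective j) (c : Raw U) (u : U) (v : c.V) :
    (j u, v) ∈ (c.push j).O ↔ (u, v) ∈ c.O :=
  (hj.prodMap Function.injective_id).mem_set_image (a := (u, v))

theorem push_p (hj : Function.Injective j) (c : Raw U) (u : U) (v : c.V) :
    (c.push j).p (j u, v) = c.p (u, v) :=
  (hj.prodMap Function.injective_id).extend_apply c.p 0 (u, v)

theorem push_s (hj : Function.Injective j) (c : Raw U) (u : U) (v : c.V) :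
    (c.push j).s (j u, v) = c.s (u, v) :=
  (hj.prodMap Function.injective_id).extend_apply c.s 0 (u, v)

theorem push_ex (c : Raw U) {x : X} {v : c.V} (hx : (x, v) ∈ (c.push j).O) :
    ∃ u, j u = x ∧ (u, v) ∈ c.O := by
  obtain ⟨⟨u, w⟩, hw, e⟩ := hx
  have e2 : w = v := congrArg Prod.snd e
  exact ⟨u, congrArg Prod.fst e, e2 ▸ hw⟩

end raw

variable [C : Fact Core]

variable {X X' U U' : Type} [TopologicalSpace X] [TopologicalSpace X'] [TopologicalSpace U]
  [TopologicalSpace U']

/-- A cocycle whose zeros lie over the image of `j` is an extension by zero. -/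
theorem push_germ {j : C(U, X)} (hj : IsOpenEmbedding j) {c : Raw X} (hc : c.Good)
    {O : Set (U × c.V)} {p : U × c.V → c.W →L[ℂ] c.W} {s : U × c.V → c.W}
    (hd : (⟨c.V, c.W, O, p, s⟩ : Raw U).Good)
    (h1 : ∀ u v, (u, v) ∈ O → (j u, v) ∈ c.O ∧ p (u, v) = c.p (j u, v) ∧ s (u, v) = c.s (j u, v))
    (h2 : ∀ x v, (x, v) ∈ c.Z → ∃ u, j u = x ∧ (u, v) ∈ O) :
    push j (cls ⟨c.V, c.W, O, p, s⟩) = cls c := by
  rw [push_cls hj hd]
  refine (cls_move hc (C.out.good2.push hd hj) (Move.germ c _ _ _ ?_ ?_ ?_ ?_)).symm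
  · rintro _ ⟨⟨u, v⟩, hz, rfl⟩
    exact (h1 u v hz).1
  · rintro _ ⟨⟨u, v⟩, hz, rfl⟩
    exact (push_p hj.injective ⟨c.V, c.W, O, p, s⟩ u v).trans (h1 u v hz).2.1
  · rintro _ ⟨⟨u, v⟩, hz, rfl⟩
    exact (push_s hj.injective ⟨c.V, c.W, O, p, s⟩ u v).trans (h1 u v hz).2.2
  · rintro ⟨x, v⟩ hz
    obtain ⟨u, rfl, hu⟩ := h2 x v hz
    exact ⟨(u, v), hu, rfl⟩

omit C in
theorem proper_slice (t : unitInterval) : IsProperMap fun x : X => (x, t) :=
  (Homeomorph.prodComm unitInterval X).isProperMap.comp (pr_id (ContinuousMap.const X t))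

theorem fn_htpy (F : C(X' × unitInterval, X)) (f g : C(X', X)) (hF : IsProperMap F)
    (hf : ∀ x, F (x, 0) = f x) (hg : ∀ x, F (x, 1) = g x) (y : h X) : pull f y = pull g y := by
  induction y using h_ind with | _ c hc => ?_
  have e0 : (f : X' → X) = fun x => F (x, 0) := funext fun x => (hf x).symm
  have e1 : (g : X' → X) = fun x => F (x, 1) := funext fun x => (hg x).symm
  have p0 : IsProperMap f := e0 ▸ hF.comp (proper_slice 0)
  have p1 : IsProperMap g := e1 ▸ hF.comp (proper_slice 1)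
  have hC := C.out.good1.pull hc hF
  rw [pull_cls p0 hc, pull_cls p1 hc, e0, e1]
  have h0 := C.out.good1.pull hC (proper_slice 0)
  have h1 := C.out.good1.pull hC (proper_slice 1)
  exact cls_move h0 h1 (Move.htpy _ hC)

theorem fn_push_comp (j : C(U, X)) (k : C(U', U)) (hj : IsOpenEmbedding j)
    (hk : IsOpenEmbedding k) (y : h U') : push j (push k y) = push (j.comp k) y := by
  induction y using h_ind with | _ c hc => ?_
  have h1 := C.out.good2.push hc hk
  rw [push_cls hk hc, push_cls hj h1]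
  refine (push_germ (j := j.comp k) (hj.comp hk) (C.out.good2.push h1 hj) hc ?_ ?_).symm
  · intro u v hz
    exact ⟨(push_mem hj.injective (c.push k) _ v).2 ((push_mem hk.injective c u v).2 hz),
      ((push_p hj.injective (c.push k) _ v).trans (push_p hk.injective c u v)).symm,
      ((push_s hj.injective (c.push k) _ v).trans (push_s hk.injective c u v)).symm⟩
  · intro x v hz
    obtain ⟨u, rfl, hu⟩ := push_ex (c.push k) hz.1
    obtain ⟨u', rfl, hu'⟩ := push_ex c hu
    exact ⟨u', rfl, hu'⟩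

theorem fn_push_homeo (j : C(U, X)) (f : C(X, U)) (h1 : ∀ u, f (j u) = u) (h2 : ∀ x, j (f x) = x)
    (y : h U) : push j y = pull f y := by
  induction y using h_ind with | _ c hc => ?_
  let e : U ≃ₜ X := ⟨⟨j, f, h1, h2⟩, j.continuous, f.continuous⟩
  have hj : IsOpenEmbedding j := e.isOpenEmbedding
  have hf : IsProperMap f := e.symm.isProperMap
  rw [pull_cls hf hc]
  refine push_germ hj (C.out.good1.pull hc hf) hc ?_ ?_
  · intro u v hz
    have e1 : (f (j u), v) = (u, v) := by rw [h1]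
    exact ⟨show (f (j u), v) ∈ c.O from e1 ▸ hz, (congrArg c.p e1).symm, (congrArg c.s e1).symm⟩
  · intro x v hz
    exact ⟨f x, h2 x, hz.1⟩

theorem fn_push_res (j : C(U, X)) (c : Raw X) (hj : IsOpenEmbedding j) (hc : c.Good)
    (hZ : ∀ z ∈ c.Z, z.1 ∈ range j) : push j (cls (c.pull j)) = cls c := by
  refine push_germ hj hc (C.out.good1.pullO hc hj.isEmbedding hZ) (fun u v hz => ⟨hz, rfl, rfl⟩) ?_
  intro x v hz
  obtain ⟨u, rfl⟩ : x ∈ range j := hZ _ hz
  exact ⟨u, rfl, hz.1⟩

theorem fn_bc (f : C(X', X)) (j : C(U, X)) (j' : C(U', X')) (f' : C(U', U)) (hf : IsProperMap f)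
    (hj : IsOpenEmbedding j) (hj' : IsOpenEmbedding j') (e : ∀ u, j (f' u) = f (j' u))
    (hs : ∀ x, f x ∈ range j → x ∈ range j') :
    IsProperMap f' ∧ ∀ y, pull f (push j y) = push j' (pull f' y) := by
  have hf' : IsProperMap f' :=
    proper_bc hf j.continuous hj.injective hj'.isInducing f'.continuous e hs
  refine ⟨hf', fun y => ?_⟩
  induction y using h_ind with | _ c hc => ?_
  have h1 := C.out.good2.push hc hj
  rw [push_cls hj hc, pull_cls hf h1, pull_cls hf' hc]
  have h2 := C.out.good1.pull hc hf'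
  refine (push_germ hj' (C.out.good1.pull h1 hf) h2 ?_ ?_).symm
  · intro u v hz
    have e1 : (j (f' u), v) = (f (j' u), v) := by rw [e]
    exact ⟨show (f (j' u), v) ∈ (c.push j).O from e1 ▸ (push_mem hj.injective c _ v).2 hz,
      (push_p hj.injective c _ v).symm.trans (congrArg _ e1),
      (push_s hj.injective c _ v).symm.trans (congrArg _ e1)⟩
  · intro x v hz
    obtain ⟨u, hu, hO⟩ := push_ex c (x := f x) hz.1
    obtain ⟨u', rfl⟩ := hs x ⟨u, hu⟩
    have e2 : f' u' = u := hj.injective ((e u').trans hu.symm)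
    exact ⟨u', rfl, show (f' u', v) ∈ c.O from e2 ▸ hO⟩

theorem fn_bcT (g : C(X', X)) (ξ : Bun X') (σ : C(X', ξ.W)) (j : C(U, X)) (j' : C(U', X'))
    (g' : C(U', U)) (hg : Tw g ξ σ) (hj : IsOpenEmbedding j) (hj' : IsOpenEmbedding j')
    (e : ∀ u, j (g' u) = g (j' u)) (hs : ∀ x, σ x = 0 → g x ∈ range j → x ∈ range j') :
    Tw g' (ξ.pull j') (σ.comp j') ∧
      ∀ y, twist g ξ σ (push j y) = push j' (twist g' (ξ.pull j') (σ.comp j') y) := by
  have hg' : Tw g' (ξ.pull j') (σ.comp j') := by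
    refine ⟨fun u => hg.1 (j' u), ?_⟩
    refine proper_bc (j' := fun u : {u // σ.comp j' u = 0} => (⟨j' u.1, u.2⟩ : {x // σ x = 0}))
      hg.2 j.continuous hj.injective ?_ (g'.continuous.comp continuous_subtype_val)
      (fun u => e u.1) ?_
    · exact (hj'.isInducing.comp IsInducing.subtypeVal).codRestrict (s := {x | σ x = 0})
        fun u => u.2
    · intro x hx
      obtain ⟨u, hu⟩ := hs x.1 x.2 hx
      exact ⟨⟨u, (congrArg σ hu).trans x.2⟩, Subtype.ext hu⟩
  refine ⟨hg', fun y => ?_⟩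
  induction y using h_ind with | _ c hc => ?_
  have h1 := C.out.good2.push hc hj
  rw [push_cls hj hc, twist_cls hg h1, twist_cls hg' hc]
  have h2 := C.out.good2.twist hc hg'
  refine (push_germ hj' (C.out.good2.twist h1 hg) h2 ?_ ?_).symm
  · intro u v hz
    have e1 : (j (g' u), v) = (g (j' u), v) := by rw [e]
    exact ⟨show (g (j' u), v) ∈ (c.push j).O from e1 ▸ (push_mem hj.injective c _ v).2 hz,
      congrArg (fun q : c.W →L[ℂ] c.W => q.prodMap (ξ.p (j' u)))
        ((push_p hj.injective c _ v).symm.trans (congrArg _ e1)),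
      congrArg (fun w : c.W => (w, σ (j' u)))
        ((push_s hj.injective c _ v).symm.trans (congrArg _ e1))⟩
  · intro x v hz
    obtain ⟨u, hu, hO⟩ := push_ex c (x := g x) hz.1
    obtain ⟨u', rfl⟩ := hs x (congrArg Prod.snd hz.2) ⟨u, hu⟩
    have e2 : g' u' = u := hj.injective ((e u').trans hu.symm)
    exact ⟨u', rfl, show (g' u', v) ∈ c.O from e2 ▸ hO⟩

theorem fn_bcP {K K' Y Y' : Type} [TopologicalSpace K] [TopologicalSpace K'] [TopologicalSpace Y]
    [TopologicalSpace Y'] (f : C(X, K)) (g : C(X, Y)) (j : C(U, X)) (k : C(K', K)) (l : C(Y', Y))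
    (f' : C(U, K')) (g' : C(U, Y')) (hp : Pr f g) (hj : IsOpenEmbedding j) (hk : IsOpenEmbedding k)
    (hl : IsOpenEmbedding l) (e1 : ∀ u, k (f' u) = f (j u)) (e2 : ∀ u, l (g' u) = g (j u))
    (hs : ∀ x, f x ∈ range k → g x ∈ range l → x ∈ range j) :
    Pr f' g' ∧ ∀ a y, prod f g (push k a) (push l y) = push j (prod f' g' a y) := by
  have hp' : Pr f' g' := by
    refine proper_bc (j := Prod.map k l) hp (k.continuous.prodMap l.continuous)
      (hk.injective.prodMap hl.injective) hj.isInducing (f'.continuous.prodMk g'.continuous)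
      (fun u => Prod.ext (e1 u) (e2 u)) ?_
    rintro x ⟨z, hz⟩
    exact hs x ⟨z.1, congrArg Prod.fst hz⟩ ⟨z.2, congrArg Prod.snd hz⟩
  refine ⟨hp', fun a y => ?_⟩
  induction a using h_ind with | _ a ha => ?_
  induction y using h_ind with | _ c hc => ?_
  have h1 := C.out.good2.push ha hk
  have h2 := C.out.good2.push hc hl
  rw [push_cls hk ha, push_cls hl hc, prod_cls hp h1 h2, prod_cls hp' ha hc]
  have h3 := C.out.good2.prod ha hc hp'
  refine (push_germ hj (C.out.good2.prod h1 h2 hp) h3 ?_ ?_).symm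
  · intro u v hz
    have e3 : (k (f' u), v.1) = (f (j u), v.1) := by rw [e1]
    have e4 : (l (g' u), v.2) = (g (j u), v.2) := by rw [e2]
    refine ⟨⟨show (f (j u), v.1) ∈ (a.push k).O from e3 ▸ (push_mem hk.injective a _ v.1).2 hz.1,
      show (g (j u), v.2) ∈ (c.push l).O from e4 ▸ (push_mem hl.injective c _ v.2).2 hz.2⟩, ?_, ?_⟩
    · exact congrArg₂ (fun (q : a.W →L[ℂ] a.W) (q' : c.W →L[ℂ] c.W) => q.prodMap q')
        ((push_p hk.injective a _ v.1).symm.trans (congrArg _ e3))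
        ((push_p hl.injective c _ v.2).symm.trans (congrArg _ e4))
    · exact Prod.ext ((push_s hk.injective a _ v.1).symm.trans (congrArg _ e3))
        ((push_s hl.injective c _ v.2).symm.trans (congrArg _ e4))
  · intro x v hz
    obtain ⟨u, hu, hO⟩ := push_ex a (x := f x) hz.1.1
    obtain ⟨w, hw, hO'⟩ := push_ex c (x := g x) hz.1.2
    obtain ⟨u', rfl⟩ := hs x ⟨u, hu⟩ ⟨w, hw⟩
    have e3 : f' u' = u := hk.injective ((e1 u').trans hu.symm)
    have e4 : g' u' = w := hl.injective ((e2 u').trans hw.symm)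
    exact ⟨u', rfl, show (f' u', v.1) ∈ a.O from e3 ▸ hO, show (g' u', v.2) ∈ c.O from e4 ▸ hO'⟩

theorem fn_empty [IsEmpty X] (x : h X) : x = 0 := by
  induction x using h_ind with | _ c hc => ?_
  exact cls_empty hc (eq_empty_of_forall_notMem fun z _ => isEmptyElim z.1)

theorem fn : S_fun where
  htpy := fn_htpy
  push_comp := fn_push_comp
  push_homeo := fn_push_homeo
  push_res := fn_push_res
  bc := fn_bc
  bcT := fn_bcT
  bcP := fn_bcP
  empty := fn_empty

end

end Pool.Agent.MP_826def_gt.BP
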