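import Pool.Agent.MP_826def_gt.MU.Spec

/-! Formal properties of the integration over a complex vector space. -/

namespace Pool.Agent.MP_826def_gt.BP

open Set Topology MU

noncomputable section

variable {X X' U K Y : Type} [TopologicalSpace X] [TopologicalSpace X'] [TopologicalSpace U]
  [TopologicalSpace K] [TopologicalSpace Y]

theorem pv_tw (E : FD) {g : C(X', X)} {ξ : Bun X'} {σ : C(X', ξ.W)} (hg : Tw g ξ σ) :
    Tw (g.prodMap (ContinuousMap.id E)) (ξ.pull ContinuousMap.fst) (σ.comp ContinuousMap.fst) := by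
  refine ⟨fun x => hg.1 x.1, ?_⟩
  let φ : {x : X' × E // σ x.1 = 0} ≃ₜ {x // σ x = 0} × E :=
    { toFun := fun x => (⟨x.1.1, x.2⟩, x.1.2)
      invFun := fun y => ⟨(y.1.1, y.2), y.1.2⟩
      left_inv := fun _ => rfl
      right_inv := fun _ => rfl
      continuous_toFun := by fun_prop
      continuous_invFun := by fun_prop }
  exact (hg.2.prodMap isProperMap_id).comp φ.isProperMap

theorem pv_pr (E : FD) {f : C(X, K)} {g : C(X, Y)} (hf : Pr f g) :
    Pr (f.comp ContinuousMap.fst) (g.prodMap (ContinuousMap.id E)) :=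
  (Homeomorph.prodAssoc K Y E).isProperMap.comp (IsProperMap.prodMap hf isProperMap_id)

theorem pv_th (E : FD) :
    Tw (ContinuousMap.fst : C(X × E, X)) (Bun.triv _ E) ContinuousMap.snd := by
  refine ⟨fun _ => rfl, ?_⟩
  let φ : {x : X × E // x.2 = 0} ≃ₜ X :=
    { toFun := fun x => x.1.1
      invFun := fun y => ⟨(y, 0), rfl⟩
      left_inv := fun x => Subtype.ext (Prod.ext rfl x.2.symm)
      right_inv := fun _ => rfl
      continuous_toFun := by fun_prop
      continuous_invFun := by fun_prop }
  exact φ.isProperMap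

/-- Exchange of the first two factors. -/
def pvSwap (A B D : FD) : (A × B × D) ≃L[ℂ] B × A × D :=
  ((ContinuousLinearEquiv.prodAssoc ℂ A B D).symm.trans
    ((ContinuousLinearEquiv.prodComm ℂ A B).prodCongr (ContinuousLinearEquiv.refl ℂ D))).trans
    (ContinuousLinearEquiv.prodAssoc ℂ B A D)

variable [C : Fact Core]

theorem pv_viso {c : Raw X} (hc : c.Good) (V' : FD) (e : V' ≃L[ℂ] c.V) :
    cls (c.viso V' e) = cls c :=
  (cls_move hc (C.out.good1.viso V' e hc) (Move.viso c V' e)).symm

theorem pv_push (E : FD) {j : C(U, X)} (hj : IsOpenEmbedding j) (y : h (U × E)) :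
    push j (pushV E y) = pushV E (push (j.prodMap (ContinuousMap.id E)) y) := by
  induction y using h_ind with | _ c hc => ?_
  have hj' : IsOpenEmbedding (j.prodMap (ContinuousMap.id E)) := hj.prodMap IsOpenEmbedding.id
  have g1 := C.out.good1.pushV E hc
  have g2 := C.out.good2.push hc hj'
  rw [pushV_cls E hc, push_cls hj g1, push_cls hj' hc, pushV_cls E g2]
  have i1 : Function.Injective (Prod.map j id : U × (E.prod c.V) → X × (E.prod c.V)) :=
    hj.injective.prodMap Function.injective_id
  have i2 : Function.Injective (Prod.map (j.prodMap (ContinuousMap.id E)) id :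
      (U × E) × c.V → (X × E) × c.V) := hj'.injective.prodMap Function.injective_id
  have eO : ((c.push (j.prodMap (ContinuousMap.id E))).pushV E).O = ((c.pushV E).push j).O := by
    ext ⟨x, e, v⟩
    constructor
    · rintro ⟨⟨⟨u, e'⟩, v'⟩, hu, h⟩
      obtain ⟨h1, rfl⟩ := Prod.mk.inj h
      obtain ⟨rfl, rfl⟩ := Prod.mk.inj h1
      exact ⟨(u, e', v'), hu, rfl⟩
    · rintro ⟨⟨u, e', v'⟩, hu, h⟩
      obtain ⟨rfl, h1⟩ := Prod.mk.inj h
      obtain ⟨rfl, rfl⟩ := Prod.mk.inj h1
      exact ⟨((u, e'), v'), hu, rfl⟩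
  refine cls_move (C.out.good2.push g1 hj) (C.out.good1.pushV E g2)
    (Move.germ ((c.pushV E).push j) _ _ _ eO.subset ?_ ?_ fun z hz => eO.superset hz.1)
  · intro z hz
    obtain ⟨⟨u, e, v⟩, -, rfl⟩ := eO.subset hz
    exact (i2.extend_apply c.p 0 ((u, e), v)).trans (i1.extend_apply (c.pushV E).p 0 (u, e, v)).symm
  · intro z hz
    obtain ⟨⟨u, e, v⟩, -, rfl⟩ := eO.subset hz
    exact (i2.extend_apply c.s 0 ((u, e), v)).trans (i1.extend_apply (c.pushV E).s 0 (u, e, v)).symm

theorem pv : S_pv where
  pull E f hf y := by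
    induction y using h_ind with | _ c hc => ?_
    have hf' : IsProperMap (f.prodMap (ContinuousMap.id E)) := hf.prodMap isProperMap_id
    rw [pushV_cls E hc, pull_cls hf (C.out.good1.pushV E hc), pull_cls hf' hc,
      pushV_cls E (C.out.good1.pull hc hf')]
    rfl
  push E j hj y := pv_push E hj y
  twist E g ξ σ hg := by
    refine ⟨pv_tw E hg, fun y => ?_⟩
    induction y using h_ind with | _ c hc => ?_
    rw [pushV_cls E hc, twist_cls hg (C.out.good1.pushV E hc), twist_cls (pv_tw E hg) hc,
      pushV_cls E (C.out.good2.twist hc (pv_tw E hg))]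
    rfl
  prod E f g hf := by
    refine ⟨pv_pr E hf, fun a y => ?_⟩
    induction a using h_ind with | _ a ha => ?_
    induction y using h_ind with | _ c hc => ?_
    have g1 := C.out.good2.prod ha hc (pv_pr E hf)
    rw [pushV_cls E hc, prod_cls hf ha (C.out.good1.pushV E hc), prod_cls (pv_pr E hf) ha hc,
      pushV_cls E g1]
    exact pv_viso (C.out.good1.pushV E g1) (a.V.prod (E.prod c.V)) (pvSwap a.V E c.V)
  th E := by
    refine ⟨pv_th E, fun y => ?_⟩
    induction y using h_ind with | _ c hc => ?_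
    have g1 := C.out.good1.stab E hc
    rw [twist_cls (pv_th E) hc, pushV_cls E (C.out.good2.twist hc (pv_th E)),
      cls_move hc g1 (Move.stab c E)]
    exact pv_viso g1 (E.prod c.V) (ContinuousLinearEquiv.prodComm ℂ E c.V)
  lift c hc := by
    rw [pushV_cls c.V (C.out.good1.lift hc)]
    exact pv_viso hc (c.V.prod FD.zero) (ContinuousLinearEquiv.prodUnique ℂ c.V Unit)
  pushV {X} _ E E' y := by
    induction y using h_ind with | _ c hc => ?_
    have hp : IsProperMap (⟨fun z : X × E × E' => ((z.1, z.2.1), z.2.2), by fun_prop⟩ :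
        C(X × E × E', (X × E) × E')) := (Homeomorph.prodAssoc X E E').symm.isProperMap
    have g1 := C.out.good1.pushV E' hc
    rw [pushV_cls E' hc, pushV_cls E g1, pull_cls hp hc,
      pushV_cls (E.prod E') (C.out.good1.pull hc hp)]
    exact (pv_viso (C.out.good1.pushV E g1) ((E.prod E').prod c.V)
      (ContinuousLinearEquiv.prodAssoc ℂ E E' c.V)).symm
  iso {X} _ E E' e y := by
    induction y using h_ind with | _ c hc => ?_
    have hp : IsProperMap ((ContinuousMap.id X).prodMap (⟨e, e.continuous⟩ : C(E', E))) :=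
      isProperMap_id.prodMap e.toHomeomorph.isProperMap
    rw [pull_cls hp hc, pushV_cls E' (C.out.good1.pull hc hp), pushV_cls E hc]
    exact pv_viso (C.out.good1.pushV E hc) (E'.prod c.V)
      (e.prodCongr (ContinuousLinearEquiv.refl ℂ c.V))

end

end Pool.Agent.MP_826def_gt.BP
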