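import Pool.Agent.MP_826def_gt.MU.Spec

/-!
Formal properties of the twisted pull back.
-/

namespace Pool.Agent.MP_826def_gt.BP

open Set Topology Filter Pool.Agent.MP_826def_gt.MU

noncomputable section

variable {X X' X'' K Y : Type} [TopologicalSpace X] [TopologicalSpace X'] [TopologicalSpace X'']
  [TopologicalSpace K] [TopologicalSpace Y]

/-- Properness on a subset through ultrafilters. -/
theorem tw_prOn (g : C(X', X)) (P : X' → Prop) :
    (IsProperMap fun x : {x // P x} => g x.1) ↔ ∀ 𝒰 : Ultrafilter X', {x | P x} ∈ 𝒰 → ∀ y,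
      Tendsto g 𝒰 (𝓝 y) → ∃ x, P x ∧ g x = y ∧ (𝒰 : Filter X') ≤ 𝓝 x := by
  rw [isProperMap_iff_ultrafilter]
  constructor
  · rintro ⟨-, H⟩ 𝒰 hP y hy
    have hr : range (Subtype.val : {x // P x} → X') ∈ 𝒰 := by
      rwa [Subtype.range_coe_subtype]
    have e : map Subtype.val (𝒰.comap Subtype.val_injective hr : Filter {x // P x}) = 𝒰 := by
      rw [Ultrafilter.coe_comap]
      exact map_comap_of_mem hr
    obtain ⟨x, hx, hx'⟩ := H (𝒰 := 𝒰.comap Subtype.val_injective hr) (y := y)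
      (hy.comp (le_of_eq e))
    exact ⟨x.1, x.2, hx, e ▸ (map_mono hx').trans continuous_subtype_val.continuousAt⟩
  · refine fun H => ⟨g.continuous.comp continuous_subtype_val, fun 𝒰 y hy => ?_⟩
    obtain ⟨x, hx, e, hx'⟩ := H (𝒰.map Subtype.val)
      (Ultrafilter.mem_map.2 (univ_mem' fun x => x.2)) y hy
    refine ⟨⟨x, hx⟩, e, ?_⟩
    rw [nhds_subtype, ← map_le_iff_le_comap]
    exact hx'

/-- A proper map is proper on the zero set of any section. -/
theorem tw_of_proper {g : C(X', X)} (hg : IsProperMap g) {ξ : Bun X'} {σ : C(X', ξ.W)}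
    (hσ : ∀ x, ξ.p x (σ x) = σ x) : Tw g ξ σ :=
  ⟨hσ, hg.comp (isClosed_eq σ.continuous continuous_const).isClosedEmbedding_subtypeVal.isProperMap⟩

theorem tw_pull {g : C(X', X)} {ξ : Bun X'} {σ : C(X', ξ.W)} {φ : C(X'', X')} (hT : Tw g ξ σ)
    (hφ : IsProperMap φ) : Tw (g.comp φ) (ξ.pull φ) (σ.comp φ) := by
  refine ⟨fun x => hT.1 (φ x), (tw_prOn (g.comp φ) fun x => σ (φ x) = 0).2 fun 𝒰 hP y hy => ?_⟩
  obtain ⟨x, hx, e, hx'⟩ := (tw_prOn g fun x => σ x = 0).1 hT.2 (𝒰.map φ) hP y hy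
  obtain ⟨z, rfl, hz⟩ := (isProperMap_iff_ultrafilter.1 hφ).2 (𝒰 := 𝒰) (y := x) hx'
  exact ⟨z, hx, e, hz⟩

theorem tw_tw {g : C(X'', X')} {ξ : Bun X''} {σ : C(X'', ξ.W)} {g' : C(X', X)} {ξ' : Bun X'}
    {σ' : C(X', ξ'.W)} (hT : Tw g ξ σ) (hT' : Tw g' ξ' σ') :
    Tw (g'.comp g) ((ξ'.pull g).sum ξ) ((σ'.comp g).prodMk σ) := by
  refine ⟨fun x => Prod.ext (hT'.1 (g x)) (hT.1 x),
    (tw_prOn (g'.comp g) fun x => (σ' (g x), σ x) = 0).2 fun 𝒰 hP y hy => ?_⟩
  obtain ⟨x, hx, e, hx'⟩ := (tw_prOn g' fun x => σ' x = 0).1 hT'.2 (𝒰.map g)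
    (Ultrafilter.mem_map.2 (mem_of_superset hP fun z (h : (σ' (g z), σ z) = 0) =>
      show σ' (g z) = 0 from congrArg Prod.fst h)) y hy
  obtain ⟨z, hz, rfl, hz'⟩ := (tw_prOn g fun x => σ x = 0).1 hT.2 𝒰
    (mem_of_superset hP fun z (h : (σ' (g z), σ z) = 0) =>
      show σ z = 0 from congrArg Prod.snd h) x hx'
  exact ⟨z, Prod.ext hx hz, e, hz'⟩

theorem tw_iso {g : C(X', X)} {ξ η : Bun X'} {σ : C(X', ξ.W)} {τ : C(X', η.W)}
    {u : C(X', ξ.W →L[ℂ] η.W)} {v : C(X', η.W →L[ℂ] ξ.W)} (hT : Tw g ξ σ)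
    (H : ∀ x, v x ∘L u x = ξ.p x ∧ u x ∘L v x = η.p x ∧ u x (σ x) = τ x) : Tw g η τ := by
  have h1 : ∀ x, v x (τ x) = σ x := fun x => by
    rw [← (H x).2.2, ← ContinuousLinearMap.comp_apply, (H x).1, hT.1]
  refine ⟨fun x => by rw [← (H x).2.1, ContinuousLinearMap.comp_apply, h1, (H x).2.2],
    (tw_prOn g fun x => τ x = 0).2 fun 𝒰 hP y hy => ?_⟩
  obtain ⟨x, hx, e, hx'⟩ := (tw_prOn g fun x => σ x = 0).1 hT.2 𝒰
    (mem_of_superset hP fun x (h : τ x = 0) => show σ x = 0 by rw [← h1, h, map_zero]) y hy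
  exact ⟨x, by rw [← (H x).2.2, hx, map_zero], e, hx'⟩

/-- The slice at a fixed time. -/
abbrev twSl (X : Type) [TopologicalSpace X] (t : unitInterval) : C(X, X × unitInterval) :=
  (ContinuousMap.id X).prodMk (ContinuousMap.const X t)

theorem twSl_proper (t : unitInterval) : IsProperMap (twSl X t) :=
  (Homeomorph.prodComm _ _).isProperMap.comp (pr_id (ContinuousMap.const X t))

variable [C : Fact Core]

omit C in
/-- Cocycles that differ by a constant change of the ambient space have the same class. -/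
theorem tw_lin {V W W' : FD} {O : Set (X × V)} {p : X × V → W →L[ℂ] W} {s : X × V → W}
    {p' : X × V → W' →L[ℂ] W'} {s' : X × V → W'} (hc : Raw.Good ⟨V, W, O, p, s⟩)
    (hc' : Raw.Good ⟨V, W', O, p', s'⟩) (j : W →L[ℂ] W') (r : W' →L[ℂ] W)
    (hr : ∀ w, r (j w) = w) (hp : ∀ z w, p' z w = j (p z (r w))) (hs : ∀ z, s' z = j (s z)) :
    cls ⟨V, W, O, p, s⟩ = cls ⟨V, W', O, p', s'⟩ := by
  have e1 : p' = fun z => j ∘L p z ∘L r := funext fun z => ContinuousLinearMap.ext (hp z)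
  have e2 : s' = fun z => j (s z) := funext hs
  subst e1 e2
  exact cls_move hc hc' (Move.wemb ⟨V, W, O, p, s⟩ W' j r (ContinuousLinearMap.ext hr))

theorem pull_twist {g : C(X', X)} {ξ : Bun X'} {σ : C(X', ξ.W)} {φ : C(X'', X')} (hT : Tw g ξ σ)
    (hφ : IsProperMap φ) (y : h X) :
    pull φ (twist g ξ σ y) = twist (g.comp φ) (ξ.pull φ) (σ.comp φ) y := by
  induction y using h_ind with | _ c hc => ?_
  rw [twist_cls hT hc, pull_cls hφ (C.out.good2.twist hc hT), twist_cls (tw_pull hT hφ) hc]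
  rfl

theorem pull_twSl (y : h (X × unitInterval)) : pull (twSl X 0) y = pull (twSl X 1) y := by
  induction y using h_ind with | _ c hc => ?_
  rw [pull_cls (twSl_proper 0) hc, pull_cls (twSl_proper 1) hc]
  exact cls_move (C.out.good1.pull hc (twSl_proper 0)) (C.out.good1.pull hc (twSl_proper 1))
    (Move.htpy c hc)

theorem twist_htpy (G : C(X' × unitInterval, X)) (ξ : Bun X') (S : C(X' × unitInterval, ξ.W))
    (g g' : C(X', X)) (σ σ' : C(X', ξ.W)) (hT : Tw G (ξ.pull ContinuousMap.fst) S)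
    (h0 : ∀ x, G (x, 0) = g x ∧ S (x, 0) = σ x) (h1 : ∀ x, G (x, 1) = g' x ∧ S (x, 1) = σ' x)
    (y : h X) : twist g ξ σ y = twist g' ξ σ' y := by
  have a1 : g = G.comp (twSl X' 0) := ContinuousMap.ext fun x => (h0 x).1.symm
  have a2 : σ = S.comp (twSl X' 0) := ContinuousMap.ext fun x => (h0 x).2.symm
  have a3 : g' = G.comp (twSl X' 1) := ContinuousMap.ext fun x => (h1 x).1.symm
  have a4 : σ' = S.comp (twSl X' 1) := ContinuousMap.ext fun x => (h1 x).2.symm
  subst a1 a2 a3 a4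
  exact (pull_twist hT (twSl_proper 0) y).symm.trans
    ((pull_twSl _).trans (pull_twist hT (twSl_proper 1) y))

theorem tw : S_tw where
  pull_twist g ξ σ φ hT hφ := ⟨tw_pull hT hφ, pull_twist hT hφ⟩
  twist_pull g ξ σ f hT hf := by
    have h1 : Tw (f.comp g) ξ σ := ⟨hT.1, hf.comp hT.2⟩
    refine ⟨h1, fun y => ?_⟩
    induction y using h_ind with | _ c hc => ?_
    rw [pull_cls hf hc, twist_cls hT (C.out.good1.pull hc hf), twist_cls h1 hc]
    rfl
  twist_twist g ξ σ g' ξ' σ' hT hT' := by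
    refine ⟨tw_tw hT hT', fun y => ?_⟩
    induction y using h_ind with | _ c hc => ?_
    have a1 := C.out.good2.twist hc hT'
    rw [twist_cls hT' hc, twist_cls hT a1, twist_cls (tw_tw hT hT') hc]
    exact tw_lin (C.out.good2.twist a1 hT) (C.out.good2.twist hc (tw_tw hT hT'))
      (ContinuousLinearEquiv.prodAssoc ℂ c.W ξ'.W ξ.W : (c.W × ξ'.W) × ξ.W →L[ℂ] c.W × ξ'.W × ξ.W)
      ((ContinuousLinearEquiv.prodAssoc ℂ c.W ξ'.W ξ.W).symm :
        c.W × ξ'.W × ξ.W →L[ℂ] (c.W × ξ'.W) × ξ.W)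
      (fun _ => rfl) (fun _ _ => rfl) fun _ => rfl
  iso g ξ η σ τ u v hT H := by
    have hT' := tw_iso hT H
    refine ⟨hT', fun y => ?_⟩
    induction y using h_ind with | _ c hc => ?_
    have a1 := C.out.good2.twist hc hT
    have a2 := C.out.good2.twist hc hT'
    rw [twist_cls hT hc, twist_cls hT' hc]
    have hp : ContinuousOn (fun z : _ × c.V => c.p (g z.1, z.2)) (c.twist g η τ).O :=
      hc.cp.comp (f := fun z : _ × c.V => (g z.1, z.2)) (by fun_prop) fun _ hz => hz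
    refine C.out.eqv (c.twist g ξ σ) (c.twist g η τ) (ContinuousLinearEquiv.refl ℂ _)
      (c.twist g η τ).O (fun z => (c.p (g z.1, z.2)).prodMap (u z.1))
      (fun z => (c.p (g z.1, z.2)).prodMap (v z.1)) a1 a2 a2.op (fun _ hz => hz.1)
      (fun _ hz => hz.1)
      ((ContinuousLinearMap.prodMapL ℂ c.W c.W ξ.W η.W).continuous.comp_continuousOn
        (hp.prodMk (u.continuous.comp continuous_fst).continuousOn))
      ((ContinuousLinearMap.prodMapL ℂ c.W c.W η.W ξ.W).continuous.comp_continuousOn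
        (hp.prodMk (v.continuous.comp continuous_fst).continuousOn))
      fun z hz => ⟨hz, hz, ContinuousLinearMap.ext fun w => Prod.ext ?_ ?_,
        ContinuousLinearMap.ext fun w => Prod.ext ?_ ?_, Prod.ext (hc.sec _ hz) (H z.1).2.2⟩
    · exact congrArg (fun q : c.W →L[ℂ] c.W => q w.1) (hc.idem _ hz)
    · exact congrArg (fun q : ξ.W →L[ℂ] ξ.W => q w.2) (H z.1).1
    · exact congrArg (fun q : c.W →L[ℂ] c.W => q w.1) (hc.idem _ hz)
    · exact congrArg (fun q : η.W →L[ℂ] η.W => q w.2) (H z.1).2.1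
  htpy := twist_htpy
  empty g ξ σ H y := by
    by_cases hT : Tw g ξ σ
    · induction y using h_ind with | _ c hc => ?_
      rw [twist_cls hT hc]
      exact cls_empty (C.out.good2.twist hc hT)
        (eq_empty_of_forall_notMem fun z hz => H z.1 (congrArg Prod.snd hz.2))
    · rw [twist, dif_neg hT]
      rfl
  zero g ξ hg H y := by
    have hT : Tw g ξ 0 := tw_of_proper hg fun x => map_zero _
    induction y using h_ind with | _ c hc => ?_
    rw [twist_cls hT hc, pull_cls hg hc]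
    refine (tw_lin (C.out.good1.pull hc hg) (C.out.good2.twist hc hT)
      (ContinuousLinearMap.inl ℂ c.W ξ.W) (ContinuousLinearMap.fst ℂ c.W ξ.W) (fun _ => rfl)
      (fun z w => Prod.ext rfl ?_) fun _ => rfl).symm
    exact congrArg (fun q : ξ.W →L[ℂ] ξ.W => q w.2) (H z.1)
  prod g ξ σ f₁ f₂ hT hP hT' a y := by
    induction a using h_ind with | _ a ha => ?_
    induction y using h_ind with | _ c hc => ?_
    have a1 := C.out.good2.prod ha hc hP
    have a2 := C.out.good2.twist hc hT'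
    rw [prod_cls hP ha hc, twist_cls hT a1, twist_cls hT' hc, prod_cls (pr_id _) ha a2]
    exact tw_lin (C.out.good2.twist a1 hT) (C.out.good2.prod ha a2 (pr_id (f₁.comp g)))
      (ContinuousLinearEquiv.prodAssoc ℂ a.W c.W ξ.W : (a.W × c.W) × ξ.W →L[ℂ] a.W × c.W × ξ.W)
      ((ContinuousLinearEquiv.prodAssoc ℂ a.W c.W ξ.W).symm :
        a.W × c.W × ξ.W →L[ℂ] (a.W × c.W) × ξ.W)
      (fun _ => rfl) (fun _ _ => rfl) fun _ => rfl
  tw_id ξ σ H := by
    refine ⟨tw_of_proper isProperMap_id H, fun y => ?_⟩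
    refine (twist_htpy ContinuousMap.fst ξ ⟨fun z => ((z.2 : ℝ) : ℂ) • σ z.1, by fun_prop⟩ _ _ 0 σ
      (tw_of_proper isProperMap_fst_of_compactSpace fun z => ?_) (fun x => ⟨rfl, ?_⟩)
      (fun x => ⟨rfl, ?_⟩) y).symm
    · show ξ.p z.1 (((z.2 : ℝ) : ℂ) • σ z.1) = ((z.2 : ℝ) : ℂ) • σ z.1
      rw [map_smul, H]
    · simp
    · simp

end

end Pool.Agent.MP_826def_gt.BP
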