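import Pool.Agent.MP_826def_gt.BP.Bun
import Pool.Agent.MP_826def_gt.BP.Fun
import Pool.Agent.MP_826def_gt.BP.Tw
import Pool.Agent.MP_826def_gt.BP.Pv
import Pool.Agent.MP_826def_gt.BP.Deg
import Pool.Agent.MP_826def_gt.BP.Eul
import Pool.Agent.MP_826def_gt.BP.Act

/-!
The interface of the cobordism groups, assembled.
-/

namespace Pool.Agent.MP_826def_gt.BP

open Pool.Agent.MP_826def_gt.MU

theorem api [C : Fact Core] : Api :=
  ⟨bun C.out.good2, fn, tw, pv, deg, eul (bun C.out.good2) fn tw deg, act fn tw pv⟩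

end Pool.Agent.MP_826def_gt.BP
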