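import Pool.Agent.MP_826def_gt.MU.Spec

/-!
Isomorphisms of bundles: fibrewise injective maps between bundles of the same rank, uniqueness of
the tensor product of line bundles, local triviality.
-/

namespace Pool.Agent.MP_826def_gt.BP

open Set Topology Filter MU

noncomputable section

variable {X X' : Type} [TopologicalSpace X] [TopologicalSpace X']

theorem idem_apply (ξ : Bun X) (x : X) (w : ξ.W) : ξ.p x (ξ.p x w) = ξ.p x w :=
  congrArg (fun q : ξ.W →L[ℂ] ξ.W => q w) (ξ.idem x)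

theorem iso_refl (ξ : Bun X) : ξ.Iso ξ := ⟨ξ.p, ξ.p, fun x => ⟨ξ.idem x, ξ.idem x⟩⟩

theorem iso_symm {ξ η : Bun X} (h : ξ.Iso η) : η.Iso ξ := by
  obtain ⟨u, v, h⟩ := h
  exact ⟨v, u, fun x => ⟨(h x).2, (h x).1⟩⟩

theorem iso_trans {ξ η ζ : Bun X} (h : ξ.Iso η) (h' : η.Iso ζ) : ξ.Iso ζ := by
  obtain ⟨u, v, h⟩ := h
  obtain ⟨u', v', h'⟩ := h'
  refine ⟨⟨fun x => u' x ∘L u x, u'.continuous.clm_comp u.continuous⟩,
    ⟨fun x => v x ∘L v' x, v.continuous.clm_comp v'.continuous⟩, fun x => ⟨?_, ?_⟩⟩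
  · ext w
    have e1 : ∀ w, v x (u x w) = ξ.p x w := fun w =>
      congrArg (fun q : ξ.W →L[ℂ] ξ.W => q w) (h x).1
    have e2 : ∀ w, u x (v x w) = η.p x w := fun w =>
      congrArg (fun q : η.W →L[ℂ] η.W => q w) (h x).2
    have e3 : ∀ w, v' x (u' x w) = η.p x w := fun w =>
      congrArg (fun q : η.W →L[ℂ] η.W => q w) (h' x).1
    show v x (v' x (u' x (u x w))) = ξ.p x w
    rw [e3, ← e2, e1, e1, idem_apply]
  · ext w
    have e2 : ∀ w, u x (v x w) = η.p x w := fun w =>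
      congrArg (fun q : η.W →L[ℂ] η.W => q w) (h x).2
    have e3 : ∀ w, v' x (u' x w) = η.p x w := fun w =>
      congrArg (fun q : η.W →L[ℂ] η.W => q w) (h' x).1
    have e4 : ∀ w, u' x (v' x w) = ζ.p x w := fun w =>
      congrArg (fun q : ζ.W →L[ℂ] ζ.W => q w) (h' x).2
    show u' x (u x (v x (v' x w))) = ζ.p x w
    rw [e2, ← e3, e4, e4, idem_apply]

theorem iso_pull {ξ η : Bun X} (h : ξ.Iso η) (f : C(X', X)) : (ξ.pull f).Iso (η.pull f) := by
  obtain ⟨u, v, h⟩ := h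
  exact ⟨u.comp f, v.comp f, fun x => h (f x)⟩

/-- The pointwise inverse. -/
theorem inv_pt {V W : FD} (p : V →L[ℂ] V) (q : W →L[ℂ] W) (u : V →L[ℂ] W)
    (hp : ∀ w, p (p w) = p w) (hr : rk p = rk q)
    (h : ∀ w, p w = w → q (u w) = u w ∧ (u w = 0 → w = 0)) :
    ∃ v : W →L[ℂ] V, (∀ w, v (u (p w)) = p w) ∧ (∀ w, u (p (v w)) = q w) ∧ ∀ w, p (v w) = v w := by
  let a : V →ₗ[ℂ] W := (u ∘L p : V →L[ℂ] W)
  have ha : ∀ w, a w = u (p w) := fun _ => rfl
  let f : V →ₗ[ℂ] W × V := a.prod (LinearMap.id - (p : V →ₗ[ℂ] V))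
  have hf : ∀ w, f w = (u (p w), w - p w) := fun _ => rfl
  have hk : LinearMap.ker f = ⊥ := by
    rw [LinearMap.ker_eq_bot']
    intro w hw
    rw [hf, Prod.mk_eq_zero] at hw
    have e : p w = w := (sub_eq_zero.1 hw.2).symm
    exact (h w e).2 (by rw [← hw.1, e])
  obtain ⟨g, hg⟩ := f.exists_leftInverse_of_injective hk
  let v0 : W →ₗ[ℂ] V := g ∘ₗ LinearMap.inl ℂ W V
  have hv0 : ∀ w, v0 (u (p w)) = p w := by
    intro w
    have := congrArg (fun q : V →ₗ[ℂ] V => q (p w)) hg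
    simp only [LinearMap.comp_apply, hf, hp, sub_self, LinearMap.id_apply] at this
    exact this
  have hqa : ∀ w, q (u (p w)) = u (p w) := fun w => (h _ (hp w)).1
  have hle : LinearMap.range a ≤ LinearMap.range (q : W →ₗ[ℂ] W) := by
    rintro _ ⟨w, rfl⟩
    exact ⟨a w, hqa w⟩
  have hmap : (LinearMap.range a).map v0 = LinearMap.range (p : V →ₗ[ℂ] V) := by
    rw [← LinearMap.range_comp]
    congr 1
    exact LinearMap.ext hv0
  have heq : LinearMap.range a = LinearMap.range (q : W →ₗ[ℂ] W) := by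
    refine Submodule.eq_of_le_of_finrank_le hle ?_
    have := Submodule.finrank_map_le v0 (LinearMap.range a)
    rw [hmap] at this
    exact (show rk q ≤ rk p from hr.ge).trans this
  have hq : ∀ w, ∃ w', u (p w') = q w := fun w => by
    have : q w ∈ LinearMap.range a := heq ▸ ⟨w, rfl⟩
    exact this
  refine ⟨p ∘L LinearMap.toContinuousLinearMap v0 ∘L q, fun w => ?_, fun w => ?_, fun w => ?_⟩
  · show p (v0 (q (u (p w)))) = p w
    rw [hqa, hv0, hp]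
  · show u (p (p (v0 (q w)))) = q w
    obtain ⟨w', e⟩ := hq w
    rw [← e, hv0, hp, hp]
  · exact hp _

theorem iso_of : ∀ {X : Type} [TopologicalSpace X] (ξ η : Bun X) (u : C(X, ξ.W →L[ℂ] η.W)),
    (∀ x, rk (ξ.p x) = rk (η.p x)) →
    (∀ x w, ξ.p x w = w → η.p x (u x w) = u x w ∧ (u x w = 0 → w = 0)) →
    ∃ v : C(X, η.W →L[ℂ] ξ.W), ∀ x, v x ∘L (u x ∘L ξ.p x) = ξ.p x ∧
      (u x ∘L ξ.p x) ∘L v x = η.p x := by
  intro X _ ξ η u hr h
  choose v h1 h2 h3 using fun x => inv_pt (ξ.p x) (η.p x) (u x) (idem_apply ξ x) (hr x) (h x)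
  refine ⟨⟨v, continuous_iff_continuousAt.2 fun x0 => ?_⟩, fun x =>
    ⟨ContinuousLinearMap.ext (h1 x), ContinuousLinearMap.ext (h2 x)⟩⟩
  let M : X → ξ.W →L[ℂ] ξ.W := fun x => v x0 ∘L (u x ∘L ξ.p x) + (1 - ξ.p x)
  have hM : Continuous M :=
    (continuous_const.clm_comp (u.continuous.clm_comp ξ.p.continuous)).add
      (continuous_const.sub ξ.p.continuous)
  have hM0 : M x0 = 1 := by
    ext w
    show v x0 (u x0 (ξ.p x0 w)) + (w - ξ.p x0 w) = w
    rw [h1, add_sub_cancel]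
  have hinv : ContinuousAt (fun x => Ring.inverse (M x)) x0 := by
    have := NormedRing.inverse_continuousAt (1 : (ξ.W →L[ℂ] ξ.W)ˣ)
    exact ContinuousAt.comp_of_eq this hM.continuousAt hM0
  have hun : ∀ᶠ x in 𝓝 x0, IsUnit (M x) :=
    (Units.isOpen.preimage hM).mem_nhds (show IsUnit (M x0) from hM0 ▸ isUnit_one)
  have hc : ContinuousAt (fun x => ξ.p x ∘L Ring.inverse (M x) ∘L v x0 ∘L η.p x) x0 :=
    ξ.p.continuous.continuousAt.clm_comp (hinv.clm_comp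
      (continuousAt_const.clm_comp η.p.continuous.continuousAt))
  refine hc.congr_of_eventuallyEq (hun.mono fun x hx => ?_)
  ext w
  show v x w = ξ.p x (Ring.inverse (M x) (v x0 (η.p x w)))
  have e1 : v x0 (η.p x w) = M x (v x w) := by
    show _ = v x0 (u x (ξ.p x (v x w))) + (v x w - ξ.p x (v x w))
    rw [h2, h3, sub_self, add_zero]
  have e2 : Ring.inverse (M x) (M x (v x w)) = v x w :=
    congrArg (fun q : ξ.W →L[ℂ] ξ.W => q (v x w)) (Ring.inverse_mul_cancel _ hx)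
  rw [e1, e2, h3]

/-- A fibrewise injective map between bundles of the same rank gives an isomorphism. -/
theorem iso_of_inj (ξ η : Bun X) (u : C(X, ξ.W →L[ℂ] η.W)) (hr : ∀ x, rk (ξ.p x) = rk (η.p x))
    (h : ∀ x w, ξ.p x w = w → η.p x (u x w) = u x w ∧ (u x w = 0 → w = 0)) : ξ.Iso η := by
  obtain ⟨v, hv⟩ := iso_of ξ η u hr h
  exact ⟨⟨fun x => u x ∘L ξ.p x, u.continuous.clm_comp ξ.p.continuous⟩, v, hv⟩

theorem rk1_ex {V : FD} {p : V →L[ℂ] V} (hp : ∀ w, p (p w) = p w) (hr : rk p = 1) :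
    ∃ c, c ≠ 0 ∧ p c = c := by
  have : 0 < Module.finrank ℂ (LinearMap.range (p : V →ₗ[ℂ] V)) := by
    rw [show Module.finrank ℂ (LinearMap.range (p : V →ₗ[ℂ] V)) = 1 from hr]
    exact one_pos
  obtain ⟨⟨_, w, rfl⟩, hc⟩ := Module.finrank_pos_iff_exists_ne_zero.1 this
  exact ⟨p w, fun e => hc (Subtype.ext e), hp w⟩

theorem rk1_mul {V : FD} {p : V →L[ℂ] V} (hr : rk p = 1) {c : V} (hc : c ≠ 0) (e : p c = c)
    (w : V) : ∃ s : ℂ, s • c = p w := by
  have h0 : (⟨c, c, e⟩ : LinearMap.range (p : V →ₗ[ℂ] V)) ≠ 0 := fun e' =>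
    hc (congrArg Subtype.val e')
  obtain ⟨s, hs⟩ := (finrank_eq_one_iff_of_nonzero' _ h0).1 hr ⟨p w, w, rfl⟩
  exact ⟨s, congrArg Subtype.val hs⟩

theorem tens_iso : ∀ {X : Type} [TopologicalSpace X] (L₁ L₂ L₃ L₄ : Bun X), L₁.Rk 1 → L₂.Rk 1 →
    L₃.Rk 1 → L₄.Rk 1 → L₁.Tens L₂ L₃ → L₁.Tens L₂ L₄ → L₃.Iso L₄ := by
  intro X _ L₁ L₂ L₃ L₄ r1 r2 r3 r4 ⟨β, hβ⟩ ⟨γ, hγ⟩
  have key : ∀ x, ∃ u : L₃.W →L[ℂ] L₄.W, (∀ w, u (L₃.p x w) = u w) ∧
      ∀ a b, L₁.p x a = a → L₂.p x b = b → u (β x a b) = γ x a b := by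
    intro x
    obtain ⟨a0, ha, ea⟩ := rk1_ex (idem_apply L₁ x) (r1 x)
    obtain ⟨b0, hb, eb⟩ := rk1_ex (idem_apply L₂ x) (r2 x)
    have hc : β x a0 b0 ≠ 0 := fun e => ((hβ x a0 b0 ea eb).2 e).elim ha hb
    obtain ⟨φ, hφ⟩ := SeparatingDual.exists_ne_zero (R := ℂ) hc
    refine ⟨(φ (β x a0 b0))⁻¹ • (φ ∘L L₃.p x).smulRight (γ x a0 b0), fun w => ?_,
      fun a b e1 e2 => ?_⟩
    · show (φ (β x a0 b0))⁻¹ • φ (L₃.p x (L₃.p x w)) • γ x a0 b0 =
        (φ (β x a0 b0))⁻¹ • φ (L₃.p x w) • γ x a0 b0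
      rw [idem_apply]
    · obtain ⟨s, hs⟩ := rk1_mul (r1 x) ha ea a
      obtain ⟨t, ht⟩ := rk1_mul (r2 x) hb eb b
      show (φ (β x a0 b0))⁻¹ • φ (L₃.p x (β x a b)) • γ x a0 b0 = γ x a b
      rw [(hβ x a b e1 e2).1, ← e1, ← e2, ← hs, ← ht]
      simp only [map_smul, smul_apply, smul_eq_mul, smul_smul]
      congr 1
      field_simp
  choose u h1 h2 using key
  have hu : Continuous u := by
    refine continuous_iff_continuousAt.2 fun x0 => ?_
    obtain ⟨a0, ha, ea⟩ := rk1_ex (idem_apply L₁ x0) (r1 x0)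
    obtain ⟨b0, hb, eb⟩ := rk1_ex (idem_apply L₂ x0) (r2 x0)
    have hc : β x0 a0 b0 ≠ 0 := fun e => ((hβ x0 a0 b0 ea eb).2 e).elim ha hb
    obtain ⟨φ, hφ⟩ := SeparatingDual.exists_ne_zero (R := ℂ) hc
    have ca : Continuous fun x => L₁.p x a0 := L₁.p.continuous.clm_apply continuous_const
    have cb : Continuous fun x => L₂.p x b0 := L₂.p.continuous.clm_apply continuous_const
    have cβ : Continuous fun x => φ (β x (L₁.p x a0) (L₂.p x b0)) :=
      φ.continuous.comp ((β.continuous.clm_apply ca).clm_apply cb)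
    have cγ : Continuous fun x => γ x (L₁.p x a0) (L₂.p x b0) :=
      (γ.continuous.clm_apply ca).clm_apply cb
    have n0 : φ (β x0 (L₁.p x0 a0) (L₂.p x0 b0)) ≠ 0 := by rw [ea, eb]; exact hφ
    have hn : ∀ᶠ x in 𝓝 x0, φ (β x (L₁.p x a0) (L₂.p x b0)) ≠ 0 :=
      cβ.continuousAt.eventually_ne n0
    have cs : Continuous fun x => ContinuousLinearMap.smulRightL ℂ L₃.W L₄.W (φ ∘L L₃.p x)
        (γ x (L₁.p x a0) (L₂.p x b0)) :=
      ((ContinuousLinearMap.smulRightL ℂ L₃.W L₄.W).continuous.comp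
        (continuous_const.clm_comp L₃.p.continuous)).clm_apply cγ
    refine ((cβ.continuousAt.inv₀ n0).smul cs.continuousAt).congr_of_eventuallyEq
      (hn.mono fun x hx => ?_)
    ext w
    show u x w = (φ (β x (L₁.p x a0) (L₂.p x b0)))⁻¹ • φ (L₃.p x w) •
      γ x (L₁.p x a0) (L₂.p x b0)
    have hc' : β x (L₁.p x a0) (L₂.p x b0) ≠ 0 := fun e => hx (by rw [e, map_zero])
    obtain ⟨s, hs⟩ := rk1_mul (r3 x) hc'
      (hβ x _ _ (idem_apply L₁ x a0) (idem_apply L₂ x b0)).1 w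
    rw [← h1, ← hs, map_smul, map_smul, h2 x _ _ (idem_apply L₁ x a0) (idem_apply L₂ x b0),
      smul_smul, smul_eq_mul]
    congr 1
    field_simp
  refine iso_of_inj L₃ L₄ ⟨u, hu⟩ (fun x => (r3 x).trans (r4 x).symm) fun x w e => ?_
  obtain ⟨a0, ha, ea⟩ := rk1_ex (idem_apply L₁ x) (r1 x)
  obtain ⟨b0, hb, eb⟩ := rk1_ex (idem_apply L₂ x) (r2 x)
  have hc : β x a0 b0 ≠ 0 := fun e => ((hβ x a0 b0 ea eb).2 e).elim ha hb
  have hd : γ x a0 b0 ≠ 0 := fun e => ((hγ x a0 b0 ea eb).2 e).elim ha hb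
  obtain ⟨s, hs⟩ := rk1_mul (r3 x) hc (hβ x a0 b0 ea eb).1 w
  rw [e] at hs
  have hw : u x w = s • γ x a0 b0 := by rw [← hs, map_smul, h2 x a0 b0 ea eb]
  show L₄.p x (u x w) = u x w ∧ (u x w = 0 → w = 0)
  rw [hw]
  refine ⟨by rw [map_smul, (hγ x a0 b0 ea eb).1], fun e0 => ?_⟩
  rw [← hs, (smul_eq_zero.1 e0).resolve_right hd, zero_smul]

theorem rk_id (E : FD) : rk (ContinuousLinearMap.id ℂ E) = E.dim := by
  show Module.finrank ℂ (LinearMap.range (LinearMap.id : E →ₗ[ℂ] E)) = _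
  rw [LinearMap.range_id, finrank_top]

theorem loc_triv : ∀ {X : Type} [TopologicalSpace X] (ξ : Bun X) (k : ℕ), ξ.Rk k →
    ∃ (n : ℕ) (G : Fin n → Set X), (∀ i, IsOpen (G i)) ∧ ⋃ i, G i = univ ∧
      ∀ i, (ξ.pull ⟨Subtype.val, continuous_subtype_val⟩).Iso (Bun.triv (G i) (FD.std k)) := by
  intro X _ ξ k hk
  let e := Module.finBasis ℂ ξ.W
  let j : (Fin k → Fin (Module.finrank ℂ ξ.W)) → (FD.std k →L[ℂ] ξ.W) := fun s =>
    LinearMap.toContinuousLinearMap (Fintype.linearCombination ℂ (e ∘ s))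
  have hj : ∀ s y, j s y = ∑ i, y i • e (s i) := fun s y => rfl
  let G : (Fin k → Fin (Module.finrank ℂ ξ.W)) → Set X := fun s =>
    {x | Function.Injective (ξ.p x ∘L j s)}
  have cj : ∀ s, Continuous fun x => ξ.p x ∘L j s := fun s =>
    ξ.p.continuous.clm_comp continuous_const
  let E := Fintype.equivFin (Fin k → Fin (Module.finrank ℂ ξ.W))
  refine ⟨_, fun i => G (E.symm i), fun i =>
    ContinuousLinearMap.isOpen_injective.preimage (cj _), ?_, fun i => ?_⟩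
  · refine eq_univ_of_forall fun x => ?_
    obtain ⟨κ, a, ha, hs, hl⟩ := exists_linearIndependent' ℂ (ξ.p x ∘ e)
    have : Fintype κ := Fintype.ofInjective a ha
    have hc : Fintype.card κ = k := by
      rw [← finrank_span_eq_card hl, hs, range_comp,
        show (ξ.p x : ξ.W → ξ.W) = (ξ.p x : ξ.W →ₗ[ℂ] ξ.W) from rfl, Submodule.span_image,
        e.span_eq, Submodule.map_top]
      exact hk x
    let t : Fin k ≃ κ := (Fintype.equivFinOfCardEq hc).symm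
    have hl' := Fintype.linearIndependent_iff.1 (hl.comp t t.injective)
    refine mem_iUnion.2 ⟨E (a ∘ t), ?_⟩
    rw [Equiv.symm_apply_apply]
    refine (injective_iff_map_eq_zero _).2 fun y hy => funext (hl' y ?_)
    rw [← hy]
    show _ = ξ.p x (j (a ∘ t) y)
    rw [hj, map_sum]
    exact Finset.sum_congr rfl fun i _ => (map_smul _ _ _).symm
  · refine iso_symm (iso_of_inj (Bun.triv _ (FD.std k)) _
      ⟨fun x => ξ.p x.1 ∘L j (E.symm i), (cj _).comp continuous_subtype_val⟩ (fun x => ?_)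
      fun x w _ => ⟨idem_apply ξ _ _, (injective_iff_map_eq_zero _).1 x.2 w⟩)
    exact ((rk_id (FD.std k)).trans (Module.finrank_fin_fun ℂ)).trans (hk x.1).symm

end

end Pool.Agent.MP_826def_gt.BP
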