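import Pool.Agent.MP_826def_gt.BP.Bun1
import Pool.Agent.MP_826def_gt.BP.Bun2
import Pool.Agent.MP_826def_gt.BP.Bun3

/-!
All facts on bundles.
-/

namespace Pool.Agent.MP_826def_gt.BP

open MU

theorem bun0 : S_bun where
  rk_taut := rk_taut
  rk_tm := rk_tm
  tens_tm := tens_tm
  rk_triv := rk_triv
  rk_hom := rk_hom
  tens_tens := tens_tens
  tens_hom := tens_hom
  iso_of := iso_of
  tens_iso := tens_iso
  tens_congr := tens_congr
  tens_assoc := tens_assoc
  classify := classify
  split_triv := split_triv
  split_hom := split_hom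
  split_sum := split_sum
  split_iso := split_iso
  split_succ := split_succ
  loc_triv := loc_triv

theorem bun (_g2 : S_good2) : S_bun := bun0

end Pool.Agent.MP_826def_gt.BP
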