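import Pool.Agent.MP_826def_gt.MU.Spec

/-!
Ranks, tensor products and the classification of line bundles.
-/

namespace Pool.Agent.MP_826def_gt.BP

open Set Topology MU

noncomputable section

/-- An operator that fixes a nonzero vector and has values on its line has rank one. -/
theorem rk_one_of {W : FD} (p : W →L[ℂ] W) (u : W) (hu : u ≠ 0) (h1 : p u = u)
    (h2 : ∀ y, ∃ c : ℂ, p y = c • u) : rk p = 1 := by
  unfold rk
  refine (finrank_eq_one_iff_of_nonzero' (⟨u, u, h1⟩ : LinearMap.range (p : W →ₗ[ℂ] W))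
    fun e => hu (congrArg Subtype.val e)).2 ?_
  rintro ⟨_, y, rfl⟩
  obtain ⟨c, hc⟩ := h2 y
  exact ⟨c, Subtype.ext hc.symm⟩

/-- The values of an operator of rank one lie on the line through a fixed vector. -/
theorem line_of_rk {W : FD} {p : W →L[ℂ] W} (h : rk p = 1) {u : W} (hu : u ≠ 0) (h1 : p u = u)
    (y : W) : ∃ c : ℂ, p y = c • u := by
  unfold rk at h
  obtain ⟨c, hc⟩ := (finrank_eq_one_iff_of_nonzero' (⟨u, u, h1⟩ : LinearMap.range (p : W →ₗ[ℂ] W))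
    fun e => hu (congrArg Subtype.val e)).1 h ⟨p y, y, rfl⟩
  exact ⟨c, (congrArg Subtype.val hc).symm⟩

theorem exists_fix {W : FD} {p : W →L[ℂ] W} (hp : p ∘L p = p) (h : rk p = 1) :
    ∃ u : W, u ≠ 0 ∧ p u = u := by
  unfold rk at h
  obtain ⟨⟨_, y, rfl⟩, hv, -⟩ := finrank_eq_one_iff'.1 h
  exact ⟨p y, fun e => hv (Subtype.ext e), congrArg (fun q : W →L[ℂ] W => q y) hp⟩

theorem cp_rep {N m : ℕ} (q : CP N m) : ∃ u : Fin N → ℂ, u ≠ 0 ∧ pj u = q.1 := by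
  obtain ⟨u, hu, -, e⟩ := q.2
  exact ⟨u, fun e => by rw [e, norm_zero] at hu; exact zero_ne_one hu, e⟩

theorem rk_taut (N m : ℕ) : (taut N m).Rk 1 := by
  intro q
  obtain ⟨u, hu, e⟩ := cp_rep q
  refine rk_one_of (W := FD.std N) (mv q.1) u hu ?_ fun y => ?_
  · rw [← e]; exact mv_pj_self hu
  · rw [← e]; exact ⟨_, mv_pj u y⟩

/-- The matrix with entries `a i * b j`. -/
def outer (N : ℕ) : (Fin N → ℂ) →L[ℂ] (Fin N → ℂ) →L[ℂ] Fin N → Fin N → ℂ :=
  LinearMap.toContinuousLinearMap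
    { toFun := fun a => ContinuousLinearMap.pi fun i => a i • ContinuousLinearMap.id ℂ (Fin N → ℂ)
      map_add' := fun a b => by
        ext y i j
        simp [add_mul]
      map_smul' := fun c a => by
        ext y i j
        simp [mul_assoc] }

theorem outer_apply {N : ℕ} (a b : Fin N → ℂ) (i : Fin N) : outer N a b i = a i • b := rfl

theorem mv2_outer {N : ℕ} (A B : (Fin N → ℂ) →L[ℂ] Fin N → ℂ) (a b : Fin N → ℂ) :
    mv2 A B (outer N a b) = outer N (A a) (B b) := by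
  funext i
  have e : (fun j => A (fun k => outer N a b k j) i) = A a i • b := by
    funext j
    have e1 : (fun k => outer N a b k j) = b j • a := funext fun k => mul_comm _ _
    rw [e1, map_smul]
    exact mul_comm _ _
  rw [mv2_apply, e, map_smul, outer_apply]

theorem outer_eq_zero {N : ℕ} {a b : Fin N → ℂ} (h : outer N a b = 0) : a = 0 ∨ b = 0 := by
  by_cases hb : b = 0
  · exact Or.inr hb
  · exact Or.inl (funext fun i => (smul_eq_zero.1 (congrFun h i)).resolve_right hb)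

theorem rk_tm {X : Type} [TopologicalSpace X] {N m : ℕ} (f g : C(X, CP N m)) : (tm f g).Rk 1 := by
  intro x
  obtain ⟨u, hu, e⟩ := cp_rep (f x)
  obtain ⟨v, hv, e'⟩ := cp_rep (g x)
  refine rk_one_of (W := FD.mat N) (mv2 (mv (f x).1) (mv (g x).1)) (outer N u v)
    (fun h => (outer_eq_zero h).elim hu hv) ?_ fun M => ?_
  · rw [← e, ← e', mv2_outer, mv_pj_self hu, mv_pj_self hv]
  · rw [← e, ← e']
    set a : Fin N → ℂ := fun j =>
      (∑ l, (starRingEnd ℂ) (u l) * M l j) / ((∑ k, Complex.normSq (u k) : ℝ) : ℂ) with ha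
    refine ⟨(∑ j, (starRingEnd ℂ) (v j) * a j) / ((∑ k, Complex.normSq (v k) : ℝ) : ℂ),
      funext fun i => ?_⟩
    have e1 : (fun j => mv (pj u) (fun k => M k j) i) = u i • a := by
      funext j
      rw [mv_pj]
      exact mul_comm _ _
    rw [mv2_apply, e1, map_smul, mv_pj, Pi.smul_apply, outer_apply, smul_comm]

theorem tens_tm {X : Type} [TopologicalSpace X] {N m : ℕ} (f g : C(X, CP N m)) :
    ((taut N m).pull f).Tens ((taut N m).pull g) (tm f g) := by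
  refine ⟨ContinuousMap.const X (outer N), fun x a b ha hb => ⟨?_, outer_eq_zero⟩⟩
  have ha' : mv (f x).1 a = a := ha
  have hb' : mv (g x).1 b = b := hb
  show mv2 (mv (f x).1) (mv (g x).1) (outer N a b) = outer N a b
  rw [mv2_outer, ha', hb']

theorem rk_triv (X : Type) [TopologicalSpace X] (E : FD) : (Bun.triv X E).Rk E.dim := by
  intro x
  show Module.finrank ℂ (LinearMap.range (LinearMap.id : E →ₗ[ℂ] E)) = Module.finrank ℂ E
  rw [LinearMap.range_id, finrank_top]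

theorem rk_conj {V W : FD} (p : V →L[ℂ] V) (q : W →L[ℂ] W) (hp : p ∘L p = p) (hq : q ∘L q = q) :
    rk (W := V.hom W) (Bun.conj p q) = rk p * rk q := by
  have hp' : ∀ y, p (p y) = p y := fun y => congrArg (fun r : V →L[ℂ] V => r y) hp
  have hq' : ∀ y, q (q y) = q y := fun y => congrArg (fun r : W →L[ℂ] W => r y) hq
  let P := LinearMap.range (p : V →ₗ[ℂ] V)
  let Q := LinearMap.range (q : W →ₗ[ℂ] W)
  let Φ : (P →ₗ[ℂ] Q) →ₗ[ℂ] V →L[ℂ] W :=
    { toFun := fun B => LinearMap.toContinuousLinearMap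
        (Q.subtype ∘ₗ B ∘ₗ (p : V →ₗ[ℂ] V).rangeRestrict)
      map_add' := fun A B => ContinuousLinearMap.ext fun y => rfl
      map_smul' := fun c A => ContinuousLinearMap.ext fun y => rfl }
  have hΦ : ∀ (B : P →ₗ[ℂ] Q) y, Φ B y = (B ⟨p y, y, rfl⟩ : W) := fun _ _ => rfl
  have hi : Function.Injective Φ := by
    intro A B e
    refine LinearMap.ext ?_
    rintro ⟨_, y, rfl⟩
    exact Subtype.ext (congrArg (fun T : V →L[ℂ] W => T y) e)
  have hr : LinearMap.range (Bun.conj p q : (V →L[ℂ] W) →ₗ[ℂ] V →L[ℂ] W) = LinearMap.range Φ := by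
    ext T
    constructor
    · rintro ⟨A, rfl⟩
      exact ⟨(q : W →ₗ[ℂ] W).rangeRestrict ∘ₗ (A : V →ₗ[ℂ] W) ∘ₗ P.subtype,
        ContinuousLinearMap.ext fun y => rfl⟩
    · rintro ⟨B, rfl⟩
      refine ⟨Φ B, ContinuousLinearMap.ext fun y => ?_⟩
      show q (Φ B (p y)) = Φ B y
      have e : (⟨p (p y), p y, rfl⟩ : P) = ⟨p y, y, rfl⟩ := Subtype.ext (hp' y)
      rw [hΦ, hΦ, e]
      obtain ⟨w, hw⟩ := (B ⟨p y, y, rfl⟩).2
      rw [← hw]
      exact hq' w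
  show Module.finrank ℂ (LinearMap.range (Bun.conj p q : (V →L[ℂ] W) →ₗ[ℂ] V →L[ℂ] W)) = _
  rw [hr, LinearMap.finrank_range_of_inj hi, Module.finrank_linearMap]
  rfl

theorem rk_hom {X : Type} [TopologicalSpace X] (ξ η : Bun X) (k l : ℕ) (hk : ξ.Rk k)
    (hl : η.Rk l) : (ξ.hom η).Rk (k * l) := by
  intro x
  rw [← hk x, ← hl x]
  exact rk_conj _ _ (ξ.idem x) (η.idem x)

/-- The elementary tensor, as the map `φ ↦ φ b • a`. -/
def tb (V W : FD) : V →L[ℂ] W →L[ℂ] (W.hom FD.C).hom V :=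
  (ContinuousLinearMap.smulRightL ℂ (W.hom FD.C) V ∘L ContinuousLinearMap.apply ℂ ℂ).flip

theorem tb_apply {V W : FD} (a : V) (b : W) (φ : W →L[ℂ] ℂ) : tb V W a b φ = φ b • a := rfl

theorem tb_eq_zero {V W : FD} {a : V} {b : W} (h : tb V W a b = 0) : a = 0 ∨ b = 0 := by
  by_cases hb : b = 0
  · exact Or.inr hb
  · obtain ⟨φ, hφ⟩ := SeparatingDual.exists_ne_zero (R := ℂ) hb
    have e : φ b • a = 0 := congrArg (fun T : (W.hom FD.C).hom V => T φ) h
    exact Or.inl ((smul_eq_zero.1 e).resolve_left hφ)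

theorem tens_tb {X : Type} [TopologicalSpace X] (ξ η : Bun X) (x : X) (a : ξ.W) (b : η.W) :
    (ξ.tens η).p x (tb ξ.W η.W a b) = tb ξ.W η.W (ξ.p x a) (η.p x b) :=
  ContinuousLinearMap.ext fun φ => map_smul (ξ.p x) (φ (η.p x b)) a

theorem tens_tens {X : Type} [TopologicalSpace X] (ξ η : Bun X) : ξ.Tens η (ξ.tens η) := by
  refine ⟨ContinuousMap.const X (tb ξ.W η.W), fun x a b ha hb => ⟨?_, tb_eq_zero⟩⟩
  show (ξ.tens η).p x (tb ξ.W η.W a b) = tb ξ.W η.W a b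
  rw [tens_tb, ha, hb]

theorem tens_hom {X : Type} [TopologicalSpace X] (ξ η : Bun X) (h : ξ.Rk 1) :
    (ξ.hom η).Tens ξ η := by
  refine ⟨ContinuousMap.const X (ContinuousLinearMap.id ℂ _), fun x A a hA ha => ⟨?_, ?_⟩⟩
  · have h1 : η.p x (A (ξ.p x a)) = A a := congrArg (fun T : ξ.W →L[ℂ] η.W => T a) hA
    rw [ha] at h1
    exact h1
  · intro h0
    have h0' : A a = 0 := h0
    by_cases ha0 : a = 0
    · exact Or.inr ha0
    · refine Or.inl (ContinuousLinearMap.ext fun y => ?_)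
      have h1 : η.p x (A (ξ.p x y)) = A y := congrArg (fun T : ξ.W →L[ℂ] η.W => T y) hA
      obtain ⟨c, hc⟩ := line_of_rk (h x) ha0 ha y
      rw [hc, map_smul, h0', smul_zero, map_zero] at h1
      exact h1.symm

theorem tens_congr {X : Type} [TopologicalSpace X] (L₁ L₂ L₃ M₁ M₂ M₃ : Bun X) (h₁ : L₁.Iso M₁)
    (h₂ : L₂.Iso M₂) (h₃ : L₃.Iso M₃) (h : L₁.Tens L₂ L₃) : M₁.Tens M₂ M₃ := by
  obtain ⟨u₁, v₁, h₁⟩ := h₁
  obtain ⟨u₂, v₂, h₂⟩ := h₂
  obtain ⟨u₃, v₃, h₃⟩ := h₃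
  obtain ⟨β, hβ⟩ := h
  have key : ∀ {L M : Bun X} {u : C(X, L.W →L[ℂ] M.W)} {v : C(X, M.W →L[ℂ] L.W)} {x : X},
      (v x ∘L u x = L.p x ∧ u x ∘L v x = M.p x) →
      (∀ w, v x (u x w) = L.p x w) ∧ ∀ w, u x (v x w) = M.p x w := fun {L M u v x} k =>
    ⟨fun w => congrArg (fun T : L.W →L[ℂ] L.W => T w) k.1,
      fun w => congrArg (fun T : M.W →L[ℂ] M.W => T w) k.2⟩
  refine ⟨⟨fun x => ContinuousLinearMap.compL ℂ M₂.W L₃.W M₃.W (u₃ x) ∘L
    (β x).bilinearComp (v₁ x) (v₂ x), continuous_clm_apply.2 fun a =>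
      continuous_clm_apply.2 fun b => ?_⟩, fun x a b ha hb => ?_⟩
  · show Continuous fun x => u₃ x (β x (v₁ x a) (v₂ x b))
    exact u₃.continuous.clm_apply ((β.continuous.clm_apply
      (v₁.continuous.clm_apply continuous_const)).clm_apply
        (v₂.continuous.clm_apply continuous_const))
  · obtain ⟨a1, a2⟩ := key (h₁ x)
    obtain ⟨b1, b2⟩ := key (h₂ x)
    obtain ⟨c1, c2⟩ := key (h₃ x)
    obtain ⟨k1, k2⟩ := hβ x (v₁ x a) (v₂ x b) (by rw [← a1, a2, ha]) (by rw [← b1, b2, hb])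
    show M₃.p x (u₃ x (β x (v₁ x a) (v₂ x b))) = u₃ x (β x (v₁ x a) (v₂ x b)) ∧
      (u₃ x (β x (v₁ x a) (v₂ x b)) = 0 → a = 0 ∨ b = 0)
    refine ⟨by rw [← c2, c1, k1], fun h0 => ?_⟩
    have h1 : β x (v₁ x a) (v₂ x b) = 0 := by rw [← k1, ← c1, h0, map_zero]
    refine (k2 h1).imp (fun e => ?_) fun e => ?_
    · rw [← ha, ← a2, e, map_zero]
    · rw [← hb, ← b2, e, map_zero]

theorem tens_assoc {X : Type} [TopologicalSpace X] (L₁ L₂ L₃ : Bun X) (_h₁ : L₁.Rk 1)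
    (_h₂ : L₂.Rk 1) (_h₃ : L₃.Rk 1) : L₁.Tens (L₂.tens L₃) ((L₁.tens L₂).tens L₃) := by
  refine ⟨ContinuousMap.const X (ContinuousLinearMap.compL ℂ (L₃.W.hom FD.C) L₂.W
    ((L₂.W.hom FD.C).hom L₁.W) ∘L tb L₁.W L₂.W), fun x a T ha hT => ⟨?_, fun h0 => ?_⟩⟩
  · refine ContinuousLinearMap.ext fun ψ => ?_
    have h1 : L₂.p x (T ((L₃.hom (Bun.triv X FD.C)).p x ψ)) = T ψ :=
      congrArg (fun S : (L₃.W.hom FD.C).hom L₂.W => S ψ) hT
    show (L₁.tens L₂).p x (tb L₁.W L₂.W a (T ((L₃.hom (Bun.triv X FD.C)).p x ψ))) =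
      tb L₁.W L₂.W a (T ψ)
    rw [tens_tb, ha, h1]
  · by_cases ha0 : a = 0
    · exact Or.inl ha0
    · refine Or.inr (ContinuousLinearMap.ext fun ψ => ?_)
      have h1 : tb L₁.W L₂.W a (T ψ) = 0 :=
        congrArg (fun S : (L₃.W.hom FD.C).hom ((L₂.W.hom FD.C).hom L₁.W) => S ψ) h0
      exact (tb_eq_zero h1).resolve_left ha0

theorem pj_smul {N : ℕ} {c : ℂ} (hc : c ≠ 0) (u : Fin N → ℂ) : pj (c • u) = pj u := by
  funext i j
  have e : ∑ k, Complex.normSq ((c • u) k) = Complex.normSq c * ∑ k, Complex.normSq (u k) := by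
    rw [Finset.mul_sum]
    exact Finset.sum_congr rfl fun k _ => Complex.normSq_mul _ _
  have h1 : ((Complex.normSq c : ℝ) : ℂ) ≠ 0 :=
    Complex.ofReal_ne_zero.2 (Complex.normSq_pos.2 hc).ne'
  rw [pj, pj, e, Complex.ofReal_mul, ← mul_div_mul_left (u i * _) _ h1]
  congr 1
  rw [Complex.normSq_eq_conj_mul_self, Pi.smul_apply, Pi.smul_apply, smul_eq_mul, smul_eq_mul,
    map_mul]
  ring

/-- The orthogonal projection onto the range of an operator of rank one. -/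
def oq {N : ℕ} (P : (Fin N → ℂ) →L[ℂ] Fin N → ℂ) : Fin N → Fin N → ℂ := fun i j =>
  (∑ k, P (Pi.single k 1) i * (starRingEnd ℂ) (P (Pi.single k 1) j)) /
    ((∑ k, ∑ l, Complex.normSq (P (Pi.single k 1) l) : ℝ) : ℂ)

theorem oq_eq {N : ℕ} {P : (Fin N → ℂ) →L[ℂ] Fin N → ℂ} {u : Fin N → ℂ} (hu : u ≠ 0)
    (h1 : P u = u) (h2 : ∀ y, ∃ c : ℂ, P y = c • u) :
    (∑ k, ∑ l, Complex.normSq (P (Pi.single k 1) l)) ≠ 0 ∧ oq P = pj u := by
  choose φ hφ using fun k : Fin N => h2 (Pi.single k 1)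
  have hφ0 : φ ≠ 0 := by
    intro e
    apply hu
    rw [← h1, pi_eq_sum_univ' u, map_sum]
    refine Finset.sum_eq_zero fun k _ => ?_
    rw [map_smul, hφ, e, Pi.zero_apply, zero_smul, smul_zero]
  have e : ∑ k, ∑ l, Complex.normSq (P (Pi.single k 1) l) =
      (∑ k, Complex.normSq (φ k)) * ∑ l, Complex.normSq (u l) := by
    rw [Finset.sum_mul_sum]
    refine Finset.sum_congr rfl fun k _ => Finset.sum_congr rfl fun l _ => ?_
    rw [hφ]
    exact Complex.normSq_mul _ _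
  refine ⟨e ▸ (mul_pos (nsq_pos hφ0) (nsq_pos hu)).ne', ?_⟩
  funext i j
  have h3 : ((∑ k, Complex.normSq (φ k) : ℝ) : ℂ) ≠ 0 :=
    Complex.ofReal_ne_zero.2 (nsq_pos hφ0).ne'
  rw [oq, pj, e, Complex.ofReal_mul, ← mul_div_mul_left (u i * _) _ h3]
  congr 1
  rw [Complex.ofReal_sum, Finset.sum_mul]
  refine Finset.sum_congr rfl fun k _ => ?_
  rw [hφ, Complex.normSq_eq_conj_mul_self, Pi.smul_apply, Pi.smul_apply, smul_eq_mul, smul_eq_mul,
    map_mul]
  ring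

theorem classify {X : Type} [TopologicalSpace X] (L : Bun X) (N : ℕ) (hL : L.Rk 1)
    (hN : L.W.dim ≤ N) : ∃ f : C(X, CP N N), L.Iso ((taut N N).pull f) := by
  obtain ⟨j₀, hj⟩ : ∃ j : L.W →ₗ[ℂ] Fin N → ℂ, Function.Injective j :=
    finrank_le_iff_exists_linearMap.1 (by simpa using hN)
  obtain ⟨r₀, hr⟩ := j₀.exists_leftInverse_of_injective (LinearMap.ker_eq_bot.2 hj)
  let j : L.W →L[ℂ] Fin N → ℂ := LinearMap.toContinuousLinearMap j₀
  let r : (Fin N → ℂ) →L[ℂ] L.W := LinearMap.toContinuousLinearMap r₀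
  have hrj : ∀ w, r (j w) = w := fun w => congrArg (fun T : L.W →ₗ[ℂ] L.W => T w) hr
  let P : X → (Fin N → ℂ) →L[ℂ] Fin N → ℂ := fun x => j ∘L L.p x ∘L r
  have hP : Continuous P := continuous_const.clm_comp (L.p.continuous.clm_comp continuous_const)
  have key : ∀ x, ∃ w : L.W, j w ≠ 0 ∧ L.p x w = w ∧ (∀ y, ∃ c : ℂ, L.p x y = c • w) ∧
      (∑ k, ∑ l, Complex.normSq (P x (Pi.single k 1) l)) ≠ 0 ∧ oq (P x) = pj (j w) := by
    intro x
    obtain ⟨w, hw, hw1⟩ := exists_fix (L.idem x) (hL x)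
    have h0 : j w ≠ 0 := fun e => hw (by rw [← hrj w, e, map_zero])
    refine ⟨w, h0, hw1, line_of_rk (hL x) hw hw1, oq_eq h0 ?_ fun y => ?_⟩
    · show j (L.p x (r (j w))) = j w
      rw [hrj, hw1]
    · obtain ⟨c, hc⟩ := line_of_rk (hL x) hw hw1 (r y)
      refine ⟨c, ?_⟩
      show j (L.p x (r y)) = c • j w
      rw [hc, map_smul]
  have hc : ∀ k l, Continuous fun x => P x (Pi.single k 1) l := fun k l =>
    (continuous_apply l).comp (hP.clm_apply continuous_const)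
  have hq : Continuous fun x => oq (P x) := by
    refine continuous_pi fun a => continuous_pi fun b => Continuous.div ?_ ?_ fun x => ?_
    · exact continuous_finsetSum _ fun k _ => (hc k a).mul (Complex.continuous_conj.comp (hc k b))
    · exact Complex.continuous_ofReal.comp (continuous_finsetSum _ fun k _ =>
        continuous_finsetSum _ fun l _ => Complex.continuous_normSq.comp (hc k l))
    · obtain ⟨_, -, -, -, h, -⟩ := key x
      exact Complex.ofReal_ne_zero.2 h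
  have hm : ∀ x, ∃ u : Fin N → ℂ, ‖u‖ = 1 ∧ (∀ i : Fin N, N ≤ i → u i = 0) ∧ pj u = oq (P x) := by
    intro x
    obtain ⟨w, h0, -, -, -, e⟩ := key x
    have hn : ‖j w‖ ≠ 0 := norm_ne_zero_iff.2 h0
    refine ⟨((‖j w‖⁻¹ : ℝ) : ℂ) • j w, ?_, fun i hi => absurd i.2 (not_lt.2 hi), ?_⟩
    · rw [norm_smul, Complex.norm_real, norm_inv, norm_norm, inv_mul_cancel₀ hn]
    · rw [e, pj_smul (Complex.ofReal_ne_zero.2 (inv_ne_zero hn))]
  refine ⟨⟨fun x => ⟨oq (P x), hm x⟩, hq.subtype_mk _⟩,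
    ⟨fun x => j ∘L L.p x, continuous_const.clm_comp L.p.continuous⟩,
    ⟨fun x => r ∘L mv (oq (P x)), continuous_const.clm_comp (mv_cont.comp hq)⟩, fun x => ?_⟩
  obtain ⟨w, h0, hw, hl, -, e⟩ := key x
  refine ⟨ContinuousLinearMap.ext fun y => ?_, ContinuousLinearMap.ext fun y => ?_⟩
  · show r (mv (oq (P x)) (j (L.p x y))) = L.p x y
    obtain ⟨c, hc⟩ := hl y
    rw [e, hc, map_smul, map_smul, mv_pj_self h0, map_smul, hrj]
  · show j (L.p x (r (mv (oq (P x)) y))) = mv (oq (P x)) y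
    rw [e, mv_pj, map_smul, map_smul, map_smul, hrj, hw]

end

end Pool.Agent.MP_826def_gt.BP
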